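import Pool.Agent.Helper74.MX.MIN

set_option autoImplicit false

open Pool.Agent.Helper89.MD (Irred)

namespace Pool.Agent.Helper74.MX

/-- Every representation of a subgroup is a quotient of the restriction of an irreducible
representation (Frobenius).
PROOF: `W0 = {f : G → U | ∀ n ∈ N, ∀ x, f (n * x) = η n (f x)}` inside `G → U` with
`(x • f) y = f (y * x)` is invariant and nonzero (take `f x = η x u` on `N` and `0` elsewhere).
Take `W` from `MIN`, transport to matrices by `MAT` and let `ev f = f 1`; it is nonzero on `W`: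
if `f x ≠ 0` then `(x • f) 1 ≠ 0`; and `ev (n • f) = f n = η n (f 1)`. -/
theorem COIND {G : Type} [Group G] [Finite G] (N : Subgroup G)
    {U : Type} [AddCommGroup U] [Module ℂ U] [FiniteDimensional ℂ U] [Nontrivial U]
    (η : N →* Module.End ℂ U) :
    ∃ (n : ℕ) (σ : G →* Matrix.GeneralLinearGroup (Fin n) ℂ) (ev : (Fin n → ℂ) →ₗ[ℂ] U),
      0 < n ∧ Irred σ ∧ ev ≠ 0 ∧
      ∀ (m : N) (v : Fin n → ℂ), ev (Matrix.mulVec (σ m).1 v) = η m (ev v) := by
  classical
  let ρ : G →* Module.End ℂ (G → U) :=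
    { toFun := fun x => LinearMap.funLeft ℂ U (fun y => y * x)
      map_one' := by
        ext f y
        simp [LinearMap.funLeft_apply]
      map_mul' := by
        intro x y
        ext f z
        simp [LinearMap.funLeft_apply, mul_assoc] }
  have hρ : ∀ (x : G) (f : G → U) (y : G), ρ x f y = f (y * x) := fun x f y => rfl
  let W0 : Submodule ℂ (G → U) :=
    { carrier := {f | ∀ (n : N) (x : G), f (n * x) = η n (f x)}
      add_mem' := by
        intro a b ha hb n x
        rw [Pi.add_apply, Pi.add_apply, map_add, ha n x, hb n x]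
      zero_mem' := by
        intro n x
        simp
      smul_mem' := by
        intro c a ha n x
        rw [Pi.smul_apply, Pi.smul_apply, map_smul, ha n x] }
  have hW0 : ∀ f : G → U, f ∈ W0 ↔ ∀ (n : N) (x : G), f (n * x) = η n (f x) := fun f => Iff.rfl
  have hinv : Inv ρ W0 := by
    intro y f hf
    rw [hW0] at hf ⊢
    intro n x
    rw [hρ, hρ, mul_assoc, hf]
  have h0 : W0 ≠ ⊥ := by
    obtain ⟨u, hu⟩ := exists_ne (0 : U)
    intro hbot
    have hmem : (fun x : G => if h : x ∈ N then η ⟨x, h⟩ u else 0) ∈ W0 := by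
      rw [hW0]
      intro n x
      by_cases hx : x ∈ N
      · have hnx : (n : G) * x ∈ N := N.mul_mem n.2 hx
        simp only [hx, hnx, dif_pos]
        rw [← Module.End.mul_apply, ← map_mul]
        rfl
      · have hnx : (n : G) * x ∉ N := fun h => hx ((N.mul_mem_cancel_left n.2).1 h)
        simp only [hx, hnx, dif_neg, not_false_eq_true, map_zero]
    rw [hbot, Submodule.mem_bot] at hmem
    have h1 := congrFun hmem 1
    simp only [N.one_mem, dif_pos, Pi.zero_apply] at h1
    have h2 : (⟨1, N.one_mem⟩ : N) = 1 := rfl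
    rw [h2, map_one] at h1
    exact hu h1
  obtain ⟨W, hW, hWW0, hWne, hirr⟩ := MIN ρ W0 h0 hinv
  obtain ⟨n, σ, e, hn, hσ, he⟩ := MAT (sub ρ W hW) hirr
  let ev : (Fin n → ℂ) →ₗ[ℂ] U :=
    (LinearMap.proj (R := ℂ) (φ := fun _ : G => U) (1 : G)) ∘ₗ W.subtype ∘ₗ e.toLinearMap
  have hev : ∀ v, ev v = (e v : G → U) 1 := fun v => rfl
  refine ⟨n, σ, ev, hn, hσ, ?_, ?_⟩
  · intro hzero
    obtain ⟨w, hw, hw0⟩ := Submodule.exists_mem_ne_zero_of_ne_bot hWne
    obtain ⟨x, hx⟩ : ∃ x, w x ≠ 0 := by
      by_contra hcon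
      push Not at hcon
      exact hw0 (funext hcon)
    have h1 := LinearMap.congr_fun hzero (e.symm ⟨ρ x w, hW x w hw⟩)
    rw [hev, LinearEquiv.apply_symm_apply] at h1
    have h2 : (ρ x w) 1 = w x := by rw [hρ, one_mul]
    exact hx (by rw [← h2]; exact h1)
  · intro m v
    rw [hev, hev, he, sub_coe, hρ, one_mul]
    have := (hW0 _).1 (hWW0 (e v).2) m 1
    rw [mul_one] at this
    exact this

end Pool.Agent.Helper74.MX
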