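import Pool.Agent.Helper74.MX.Defs

set_option autoImplicit false

namespace Pool.Agent.Helper74.MX

/-- Lower bound for the dimension of a representation which maps onto `η` when the twists of `η`
by `g^0, ..., g^(t-1)` are pairwise inequivalent.
PROOF: `Q : V →ₗ (Fin t → U)`, `Q v i = ev (ψ (g^i) v)`. Claim: `Q` is surjective. The `i`-th
coordinate satisfies `Q (ψ n v) i = η (g^i n g^-i) (Q v i)`. Show by induction on `s ≤ t` that
`Q_s : V → (Fin s → U)` (first `s` coordinates) is surjective. Step: let `K = ker Q_s` (invariant
under `N`) and `ev_s v = ev (ψ (g^s) v)`; `ev_s K` is invariant under all `η n`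
(as `g^s n g^-s` runs over `N`), so it is `⊤` (then `Q_(s+1)` is surjective: correct the last
coordinate by an element of `K`) or `⊥`. In the second case `ev_s` factors through `Q_s`:
there is a linear `f : (Fin s → U) → U` with `ev_s = f ∘ Q_s`; `f ≠ 0` (`ev ≠ 0`), so for some
`i < s` the map `B u = f (Pi.single i u)` is nonzero; since `Q_s` is surjective it satisfies
`B (η (g^i n g^-i) u) = η (g^s n g^-s) (B u)`; its kernel is invariant so `B` is injective, hence
bijective, and replacing `n` by `g^-i n g^i` gives `Tw N g η (s - i)` with `0 < s - i < t`: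
contradiction. Finally compare dimensions. -/
theorem DOWN {G : Type} [Group G] (N : Subgroup G) [N.Normal] (g : G)
    {V : Type} [AddCommGroup V] [Module ℂ V] [FiniteDimensional ℂ V]
    (ψ : G →* Module.End ℂ V)
    {U : Type} [AddCommGroup U] [Module ℂ U] [FiniteDimensional ℂ U]
    (η : N →* Module.End ℂ U) (hη : Irr η) (ev : V →ₗ[ℂ] U) (hev : ev ≠ 0)
    (hevN : ∀ (n : N) (v : V), ev (ψ n v) = η n (ev v)) (t : ℕ)
    (hT : ∀ d : ℤ, 0 < d → d < t → ¬ Tw N g η d) :
    t * Module.finrank ℂ U ≤ Module.finrank ℂ V := by
  classical
  -- the coordinates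
  let E : ℕ → V →ₗ[ℂ] U := fun i => ev ∘ₗ ψ (g ^ i)
  have hE : ∀ (i : ℕ) (v : V), E i v = ev (ψ (g ^ i) v) := fun i v => rfl
  have hEN : ∀ (i : ℕ) (n : N) (v : V),
      E i (ψ n v) = η (MulAut.conjNormal (g ^ i) n) (E i v) := by
    intro i n v
    rw [hE, hE, ← hevN]
    congr 1
    rw [← Module.End.mul_apply, ← Module.End.mul_apply, ← map_mul, ← map_mul]
    congr 2
    rw [MulAut.conjNormal_apply]
    group
  let Q : (s : ℕ) → V →ₗ[ℂ] (Fin s → U) := fun s => LinearMap.pi (fun i : Fin s => E i)
  have hQ : ∀ (s : ℕ) (v : V) (i : Fin s), Q s v i = E i v := fun s v i => rfl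
  have hE0 : ∀ s : ℕ, E s ≠ 0 := by
    intro s h0
    apply hev
    ext v
    have h1 : E s (ψ (g ^ s)⁻¹ v) = ev v := by
      rw [hE, ← Module.End.mul_apply, ← map_mul, mul_inv_cancel, map_one]
      rfl
    rw [← h1, h0]
    rfl
  have main : ∀ s : ℕ, s ≤ t → Function.Surjective (Q s) := by
    intro s
    induction s with
    | zero => intro _ w; exact ⟨0, Subsingleton.elim _ _⟩
    | succ s ih =>
      intro hst
      have hsurj := ih (by omega)
      let M : Submodule ℂ U := (LinearMap.ker (Q s)).map (E s)
      have hMinv : Inv η M := by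
        rintro n u ⟨v, hv, rfl⟩
        refine ⟨ψ ((MulAut.conjNormal (g ^ s)).symm n : N) v, ?_, ?_⟩
        · rw [SetLike.mem_coe, LinearMap.mem_ker] at hv ⊢
          ext i
          rw [hQ, hEN]
          have : E i v = 0 := congrFun hv i
          rw [this, map_zero]
          rfl
        · rw [hEN, MulEquiv.apply_symm_apply]
      rcases hη.2 M hMinv with hM | hM
      · exfalso
        have hker : ∀ v, Q s v = 0 → E s v = 0 := by
          intro v hv
          have : E s v ∈ M := ⟨v, LinearMap.mem_ker.2 hv, rfl⟩
          rw [hM] at this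
          exact (Submodule.mem_bot ℂ).1 this
        obtain ⟨r, hr⟩ := LinearMap.exists_rightInverse_of_surjective (Q s)
          (LinearMap.range_eq_top.2 hsurj)
        have hr' : ∀ w, Q s (r w) = w := fun w => by
          have := LinearMap.congr_fun hr w
          exact this
        let f : (Fin s → U) →ₗ[ℂ] U := (E s) ∘ₗ r
        have hf : ∀ v, f (Q s v) = E s v := by
          intro v
          have h1 : E s (r (Q s v) - v) = 0 := hker _ (by rw [map_sub, hr', sub_self])
          rw [map_sub, sub_eq_zero] at h1
          exact h1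
        have hex : ∃ i : Fin s, f ∘ₗ LinearMap.single ℂ (fun _ : Fin s => U) i ≠ 0 := by
          by_contra hcon
          push Not at hcon
          apply hE0 s
          ext v
          rw [← hf]
          have h2 : f = 0 := by
            refine LinearMap.pi_ext' fun i => ?_
            rw [hcon i, LinearMap.zero_comp]
          rw [h2]
          rfl
        obtain ⟨i, hi⟩ := hex
        set B : U →ₗ[ℂ] U := f ∘ₗ LinearMap.single ℂ (fun _ : Fin s => U) i with hB
        have hBN : ∀ (n : N) (u : U),
            B (η (MulAut.conjNormal (g ^ (i : ℕ)) n) u) = η (MulAut.conjNormal (g ^ s) n) (B u) := by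
          intro n u
          obtain ⟨v, hv⟩ := hsurj (Pi.single i u)
          have h1 : Q s (ψ n v) = Pi.single i (η (MulAut.conjNormal (g ^ (i : ℕ)) n) u) := by
            ext j
            rw [hQ, hEN]
            have h2 : E j v = Pi.single (M := fun _ => U) i u j := by rw [← hv]; rfl
            rw [h2]
            by_cases hji : j = i
            · subst hji
              rw [Pi.single_eq_same, Pi.single_eq_same]
            · rw [Pi.single_eq_of_ne hji, Pi.single_eq_of_ne hji, map_zero]
          have h3 : B (η (MulAut.conjNormal (g ^ (i : ℕ)) n) u) = f (Q s (ψ n v)) := by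
            rw [h1]; rfl
          have h4 : B u = f (Q s v) := by rw [hv]; rfl
          rw [h3, h4, hf, hf, hEN]
        have hBker : LinearMap.ker B = ⊥ := by
          have hinv : Inv η (LinearMap.ker B) := by
            intro m u hu
            rw [LinearMap.mem_ker] at hu ⊢
            have := hBN ((MulAut.conjNormal (g ^ (i : ℕ))).symm m) u
            rw [MulEquiv.apply_symm_apply] at this
            rw [this, hu, map_zero]
          rcases hη.2 _ hinv with h | h
          · exact h
          · exact absurd (LinearMap.ker_eq_top.1 h) hi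
        refine hT ((s : ℤ) - i) (by have := i.2; omega) (by omega) ?_
        refine ⟨LinearEquiv.ofInjectiveEndo B (LinearMap.ker_eq_bot.1 hBker), fun n u => ?_⟩
        rw [LinearEquiv.coe_ofInjectiveEndo]
        have h5 := hBN ((MulAut.conjNormal (g ^ (i : ℕ))).symm n) u
        rw [MulEquiv.apply_symm_apply] at h5
        rw [h5]
        congr 2
        apply Subtype.ext
        rw [MulAut.conjNormal_apply, MulAut.conjNormal_apply, MulAut.conjNormal_symm_apply,
          zpow_sub, zpow_natCast, zpow_natCast]
        group
      · intro w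
        obtain ⟨v0, hv0⟩ := hsurj (fun i => w i.castSucc)
        have hδ : w (Fin.last s) - E s v0 ∈ M := by rw [hM]; trivial
        obtain ⟨k, hk, hk2⟩ := hδ
        refine ⟨v0 + k, ?_⟩
        ext j
        rw [hQ, map_add]
        refine Fin.lastCases ?_ (fun i => ?_) j
        · rw [Fin.val_last, hk2]
          abel
        · have h1 : E i v0 = w i.castSucc := congrFun hv0 i
          have h2 : E i k = 0 := congrFun (LinearMap.mem_ker.1 hk) i
          rw [Fin.val_castSucc, h1, h2, add_zero]
  have hsurj := main t le_rfl
  have h1 : Module.finrank ℂ (Fin t → U) = t * Module.finrank ℂ U := by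
    rw [Module.finrank_pi_fintype]
    simp
  rw [← h1]
  have h2 := LinearMap.finrank_range_le (Q t)
  rw [LinearMap.range_eq_top.2 hsurj, finrank_top] at h2
  exact h2

end Pool.Agent.Helper74.MX
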