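import Pool.Agent.Helper74.MX.Defs

set_option autoImplicit false

namespace Pool.Agent.Helper74.MX

private theorem tw_untens {G : Type} [Group G] (N : Subgroup G) [N.Normal] (g : G) {U : Type}
    [AddCommGroup U] [Module ℂ U] (η : N →* Module.End ℂ U) (μ : N →* ℂˣ) (c d : ℤ)
    (B : U ≃ₗ[ℂ] U)
    (hB : ∀ (n : N) (u : U), B (tens η μ c n u) =
      tens η μ c (MulAut.conjNormal (g ^ d) n) (B u)) (n : N) (u : U) :
    B (η n u) = (((μ (MulAut.conjNormal (g ^ d) n) / μ n) ^ c : ℂˣ) : ℂ) •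
      η (MulAut.conjNormal (g ^ d) n) (B u) := by
  have h := hB n u
  rw [tens_apply, tens_apply, map_smul] at h
  have h2 : B (η n u) = (((μ n ^ c)⁻¹ : ℂˣ) : ℂ) • ((((μ n) ^ c : ℂˣ) : ℂ) • B (η n u)) := by
    rw [smul_smul, ← Units.val_mul, inv_mul_cancel, Units.val_one, one_smul]
  rw [h2, h, smul_smul, ← Units.val_mul]
  congr 2
  rw [div_zpow, div_eq_mul_inv, mul_comm]

private theorem tw_solve {p : ℕ} (hp : p.Prime) (k : ℕ) (c e : ℤ) (h : ¬ (p : ℤ) ∣ e) :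
    ∃ (m : ℕ) (t : ℤ), (m : ℤ) * e + c = (p : ℤ) ^ k * t := by
  have hp' : Prime (p : ℤ) := Nat.prime_iff_prime_int.mp hp
  have h1 : IsCoprime ((p : ℤ) ^ k) e := (hp'.coprime_iff_not_dvd.mpr h).pow_left
  obtain ⟨b, a, hab⟩ := h1
  have hpos : (0 : ℤ) < (p : ℤ) ^ k := pow_pos (by exact_mod_cast hp.pos) k
  have hM := Int.emod_nonneg (-c * a) hpos.ne'
  have hq := Int.emod_add_mul_ediv (-c * a) ((p : ℤ) ^ k)
  refine ⟨((-c * a) % (p : ℤ) ^ k).toNat, c * b - ((-c * a) / (p : ℤ) ^ k) * e, ?_⟩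
  rw [Int.toNat_of_nonneg hM]
  have h3 : (-c * a) % (p : ℤ) ^ k = -c * a - (p : ℤ) ^ k * ((-c * a) / (p : ℤ) ^ k) := by
    linarith
  rw [h3]
  linear_combination (-c) * hab

/-- If `c` and `c'` are different modulo `p` and both `η ⊗ μ^c`, `η ⊗ μ^c'` are equivalent to
their twists by `g ^ d`, then so is `η`.
PROOF: write `n' = g^d n g^-d`, `β n = μ n' / μ n` (a homomorphism `N →* ℂˣ`). From `h` there is
`B` with `B (η n u) = β(n)^c • η n' (B u)` and from `h'` there is `B'` with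
`B' (η n u) = β(n)^c' • η n' (B' u)`. Let `E = B'⁻¹ B`: `E (η n u) = β(n)^(c-c') • η n (E u)`.
As `p ∤ c - c'` and `N` is a finite `p`-group there is `m : ℤ` with
`m (c - c') ≡ c` modulo `Nat.card N` (a power of `p`), and `β(n)^(Nat.card N) = 1`.
Then `B0 = B E^(-m)` satisfies `B0 (η n u) = η n' (B0 u)`. (`E^(-m)` in the group
`U ≃ₗ[ℂ] U`; one may take `m` natural and use `E⁻¹`.) -/
theorem TW {G : Type} [Group G] [Finite G] {p : ℕ} (hp : p.Prime) (hG : IsPGroup p G)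
    (N : Subgroup G) [N.Normal] (g : G) {U : Type} [AddCommGroup U] [Module ℂ U]
    (η : N →* Module.End ℂ U) (μ : N →* ℂˣ) (c c' d : ℤ) (hcc : ¬ (p : ℤ) ∣ c - c')
    (h : Tw N g (tens η μ c) d) (h' : Tw N g (tens η μ c') d) : Tw N g η d := by
  have : Fact p.Prime := ⟨hp⟩
  obtain ⟨B, hB⟩ := h
  obtain ⟨B', hB'⟩ := h'
  have hB1 := tw_untens N g η μ c d B hB
  have hB1' := tw_untens N g η μ c' d B' hB'
  obtain ⟨k, hk⟩ := IsPGroup.iff_card.mp (hG.to_subgroup N)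
  set β : N → ℂˣ := fun n => μ (MulAut.conjNormal (g ^ d) n) / μ n with hβ
  have hβ1 : ∀ n : N, β n ^ ((p : ℤ) ^ k) = 1 := by
    intro n
    have e : ((p : ℤ) ^ k) = ((Nat.card N : ℕ) : ℤ) := by
      rw [hk]
      push_cast
      rfl
    have e5 : ∀ y : N, μ y ^ Nat.card N = 1 := by
      intro y
      rw [← map_pow, pow_card_eq_one', map_one]
    rw [e, zpow_natCast, hβ]
    simp only
    rw [div_pow, e5, e5, div_one]
  have hE : ∀ (n : N) (u : U), B'.symm (B (η n u)) =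
      ((β n ^ (c - c') : ℂˣ) : ℂ) • η n (B'.symm (B u)) := by
    intro n u
    rw [hB1 n u, map_smul]
    have e2 := hB1' n (B'.symm (B u))
    rw [LinearEquiv.apply_symm_apply] at e2
    have e3 : η (MulAut.conjNormal (g ^ d) n) (B u) =
        (((β n ^ c')⁻¹ : ℂˣ) : ℂ) • B' (η n (B'.symm (B u))) := by
      rw [e2, smul_smul, ← Units.val_mul]
      have : (β n ^ c')⁻¹ * (μ (MulAut.conjNormal (g ^ d) n) / μ n) ^ c' = 1 := by
        rw [hβ]
        exact inv_mul_cancel _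
      rw [this, Units.val_one, one_smul]
    rw [e3, map_smul, LinearEquiv.symm_apply_apply, smul_smul, ← Units.val_mul]
    congr 2
    rw [zpow_sub, hβ]
  have hEm : ∀ m : ℕ, ∃ F : U ≃ₗ[ℂ] U, ∀ (n : N) (u : U), F (η n u) =
      ((β n ^ ((m : ℤ) * (c - c')) : ℂˣ) : ℂ) • η n (F u) := by
    intro m
    induction m with
    | zero =>
      refine ⟨LinearEquiv.refl ℂ U, fun n u => ?_⟩
      simp
    | succ m ih =>
      obtain ⟨F, hF⟩ := ih
      refine ⟨(B.trans B'.symm).trans F, fun n u => ?_⟩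
      simp only [LinearEquiv.trans_apply]
      rw [hE n u, map_smul, hF, smul_smul, ← Units.val_mul]
      congr 2
      rw [← zpow_add]
      congr 1
      push_cast
      ring
  obtain ⟨m, t, hm⟩ := tw_solve hp k c (c - c') hcc
  obtain ⟨F, hF⟩ := hEm m
  refine ⟨F.trans B, fun n u => ?_⟩
  simp only [LinearEquiv.trans_apply]
  rw [hF n u, map_smul, hB1 n (F u), smul_smul, ← Units.val_mul]
  have e4 : β n ^ ((m : ℤ) * (c - c')) * (μ (MulAut.conjNormal (g ^ d) n) / μ n) ^ c = 1 := by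
    change β n ^ ((m : ℤ) * (c - c')) * β n ^ c = 1
    rw [← zpow_add, hm, zpow_mul, hβ1 n, one_zpow]
  rw [e4, Units.val_one, one_smul]

end Pool.Agent.Helper74.MX
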