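import Pool.Agent.Helper74.MX.Defs

set_option autoImplicit false

namespace Pool.Agent.Helper74.MX

/-- The exponents `d` for which `η` is equivalent to its twist by `g ^ d` are the multiples of a
power of `p`.
PROOF: they form an additive subgroup of `ℤ` (identity, composition, inverse of the operators;
`MulAut.conjNormal` is a homomorphism), so `= a ℤ` with `a ≥ 0` (`Int.subgroup_cyclic` /
`AddSubgroup` of `ℤ` is `zmultiples`), and it contains `Nat.card G = p ^ k` because
`g ^ Nat.card G = 1` (identity operator). So `a ∣ p ^ k`, `a = p ^ j`. -/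
theorem TWSUB {G : Type} [Group G] [Finite G] {p : ℕ} (hp : p.Prime) (hG : IsPGroup p G)
    (N : Subgroup G) [N.Normal] (g : G) {U : Type} [AddCommGroup U] [Module ℂ U]
    (η : N →* Module.End ℂ U) :
    ∃ j : ℕ, ∀ d : ℤ, Tw N g η d ↔ ((p : ℤ) ^ j) ∣ d := by
  classical
  have := Fact.mk hp
  let A : AddSubgroup ℤ :=
    { carrier := {d | Tw N g η d}
      zero_mem' := ⟨LinearEquiv.refl ℂ U, by intro n u; simp⟩
      add_mem' := by
        rintro a b ⟨B, hB⟩ ⟨C, hC⟩
        refine ⟨C.trans B, ?_⟩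
        intro n u
        rw [LinearEquiv.trans_apply, hC, hB, LinearEquiv.trans_apply, zpow_add, map_mul]
        rfl
      neg_mem' := by
        rintro a ⟨B, hB⟩
        refine ⟨B.symm, ?_⟩
        intro n u
        apply B.injective
        rw [hB, B.apply_symm_apply, B.apply_symm_apply, ← MulAut.mul_apply, ← map_mul, ← zpow_add]
        simp }
  obtain ⟨k, hk⟩ := IsPGroup.iff_card.mp hG
  have hmem : ((p : ℤ) ^ k) ∈ A := by
    refine ⟨LinearEquiv.refl ℂ U, ?_⟩
    intro n u
    have h1 : g ^ ((p : ℤ) ^ k) = 1 := by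
      have h2 : g ^ Nat.card G = 1 := pow_card_eq_one'
      rw [hk] at h2
      exact_mod_cast h2
    rw [h1]
    simp
  obtain ⟨a, ha⟩ := Int.subgroup_cyclic A
  have hA : ∀ d : ℤ, Tw N g η d ↔ a ∣ d := by
    intro d
    have : Tw N g η d ↔ d ∈ A := Iff.rfl
    rw [this, ha, ← AddSubgroup.zmultiples_eq_closure, Int.mem_zmultiples_iff]
  have hak : a ∣ (p : ℤ) ^ k := (hA _).mp hmem
  have hnat : a.natAbs ∣ p ^ k := by
    have := Int.natAbs_dvd_natAbs.mpr hak
    rwa [Int.natAbs_pow, Int.natAbs_natCast] at this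
  obtain ⟨j, -, hj⟩ := (Nat.dvd_prime_pow hp).mp hnat
  refine ⟨j, ?_⟩
  intro d
  rw [hA d, ← Int.natAbs_dvd, hj]
  push_cast
  rfl

end Pool.Agent.Helper74.MX
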