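import Pool.Agent.Helper74.MX.Defs

set_option autoImplicit false

namespace Pool.Agent.Helper74.MX

/-- Upper bound for the dimension of an irreducible representation over `η` when `η` is
equivalent to its twist by `g ^ t`.
PROOF: let `A` be the operator from `hT` (`A (η n u) = η (g^t n g^-t) (A u)`).
`Hom_N(U,V) = {φ : U →ₗ V | ∀ n u, φ (η n u) = ψ n (φ u)}` is a finite-dimensional nonzero space
(it contains `j`) and `Φ φ = ψ (g^t) ∘ φ ∘ A⁻¹` maps it to itself:
`Φφ (η n u) = ψ(g^t) φ (η (g^-t n g^t) A⁻¹ u) = ψ(g^t) ψ(g^-t n g^t) φ(A⁻¹ u) = ψ n (Φφ u)`.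
So there is an eigenvector `φ ≠ 0`, `ψ (g^t) (φ u) = s • φ (A u)`. The subspace
`W = ⨆ i < t, map (ψ (g^i)) (range φ)` is invariant under `ψ g` and under all `ψ n`
(`ψ n ψ(g^i) φ u = ψ(g^i) ψ(g^-i n g^i) φ u`), hence under all of `G` by `hg`
(`x = g^i n`), it is nonzero, so it is `⊤`, and its dimension is at most `t * finrank U`. -/
theorem UP {G : Type} [Group G] [Finite G] (N : Subgroup G) [N.Normal] (g : G)
    (hg : ∀ x : G, ∃ (i : ℕ) (n : N), x = g ^ i * n)
    {V : Type} [AddCommGroup V] [Module ℂ V] [FiniteDimensional ℂ V]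
    (ψ : G →* Module.End ℂ V) (hψ : Irr ψ)
    {U : Type} [AddCommGroup U] [Module ℂ U] [FiniteDimensional ℂ U]
    (η : N →* Module.End ℂ U) (j : U →ₗ[ℂ] V) (hj : j ≠ 0)
    (hjN : ∀ (n : N) (u : U), j (η n u) = ψ n (j u)) (t : ℕ) (ht : 0 < t)
    (hT : Tw N g η t) : Module.finrank ℂ V ≤ t * Module.finrank ℂ U := by
  obtain ⟨A, hA⟩ := hT
  -- the conjugates
  have hconj : ∀ (k : ℤ) (n : N), ψ (g ^ k) * ψ (MulAut.conjNormal (g ^ (-k)) n : N) =
      ψ n * ψ (g ^ k) := by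
    intro k n
    rw [← map_mul, ← map_mul]
    congr 1
    rw [MulAut.conjNormal_apply]
    group
  have hAinv : ∀ (n : N) (u : U),
      A.symm (η n u) = η (MulAut.conjNormal (g ^ (-(t : ℤ))) n) (A.symm u) := by
    intro n u
    rw [LinearEquiv.symm_apply_eq, hA, LinearEquiv.apply_symm_apply]
    congr 2
    apply Subtype.ext
    rw [MulAut.conjNormal_apply, MulAut.conjNormal_apply]
    group
  let S : Submodule ℂ (U →ₗ[ℂ] V) :=
    { carrier := {φ | ∀ (n : N) (u : U), φ (η n u) = ψ n (φ u)}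
      zero_mem' := by intro n u; simp
      add_mem' := by
        intro a b ha hb n u
        rw [LinearMap.add_apply, ha, hb, LinearMap.add_apply, map_add]
      smul_mem' := by
        intro c a ha n u
        rw [LinearMap.smul_apply, ha, LinearMap.smul_apply, map_smul] }
  let Φ0 : (U →ₗ[ℂ] V) →ₗ[ℂ] (U →ₗ[ℂ] V) :=
    { toFun := fun φ => ψ (g ^ (t : ℤ)) ∘ₗ φ ∘ₗ A.symm.toLinearMap
      map_add' := by intro a b; apply LinearMap.ext; intro u; simp
      map_smul' := by intro c a; apply LinearMap.ext; intro u; simp }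
  have hΦ0 : ∀ φ ∈ S, Φ0 φ ∈ S := by
    intro φ hφ n u
    change ψ (g ^ (t : ℤ)) (φ (A.symm (η n u))) = ψ n (ψ (g ^ (t : ℤ)) (φ (A.symm u)))
    rw [hAinv, hφ]
    have := LinearMap.congr_fun (hconj t n) (φ (A.symm u))
    exact this
  let Φ : Module.End ℂ S := Φ0.restrict hΦ0
  have : Nontrivial S := ⟨⟨⟨j, hjN⟩, 0, fun h => hj (congrArg Subtype.val h)⟩⟩
  obtain ⟨s, hs⟩ := Module.End.exists_eigenvalue Φ
  obtain ⟨φ, hφ⟩ := hs.exists_hasEigenvector
  have hφ1 : ∀ (n : N) (u : U), φ.1 (η n u) = ψ n (φ.1 u) := φ.2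
  have hφ0 : φ.1 ≠ 0 := fun h => hφ.2 (Subtype.ext h)
  have hφe : ∀ u : U, ψ (g ^ t) (φ.1 u) = s • φ.1 (A u) := by
    intro u
    have h1 := hφ.apply_eq_smul
    have h2 := congrArg Subtype.val h1
    have h3 := LinearMap.congr_fun h2 (A u)
    change ψ (g ^ (t : ℤ)) (φ.1 (A.symm (A u))) = s • φ.1 (A u) at h3
    rw [LinearEquiv.symm_apply_apply, zpow_natCast] at h3
    exact h3
  let F : (Fin t → U) →ₗ[ℂ] V :=
    ∑ i : Fin t, ψ (g ^ (i : ℕ)) ∘ₗ φ.1 ∘ₗ LinearMap.proj i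
  have hF : ∀ v : Fin t → U, F v = ∑ i : Fin t, ψ (g ^ (i : ℕ)) (φ.1 (v i)) := by
    intro v
    simp [F, LinearMap.sum_apply]
  have hC : ∀ k, k < t → ∀ u : U, ψ (g ^ k) (φ.1 u) ∈ LinearMap.range F := by
    intro k hk u
    refine ⟨Pi.single ⟨k, hk⟩ u, ?_⟩
    rw [hF, Finset.sum_eq_single ⟨k, hk⟩]
    · simp
    · intro b _ hb
      rw [Pi.single_eq_of_ne hb]
      simp
    · simp
  have hgW : ∀ v ∈ LinearMap.range F, ψ g v ∈ LinearMap.range F := by
    rintro v ⟨w, rfl⟩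
    rw [hF, map_sum]
    refine Submodule.sum_mem _ fun i _ => ?_
    have h1 : ψ g (ψ (g ^ (i : ℕ)) (φ.1 (w i))) = ψ (g ^ ((i : ℕ) + 1)) (φ.1 (w i)) := by
      rw [pow_succ', map_mul]
      rfl
    rw [h1]
    rcases Nat.lt_or_ge ((i : ℕ) + 1) t with h | h
    · exact hC _ h _
    · have h2 : (i : ℕ) + 1 = t := by
        have := i.isLt
        omega
      rw [h2, hφe]
      have h3 := hC 0 ht (A (w i))
      rw [pow_zero, map_one] at h3
      exact Submodule.smul_mem _ _ h3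
  have hnW : ∀ (n : N), ∀ v ∈ LinearMap.range F, ψ n v ∈ LinearMap.range F := by
    rintro n v ⟨w, rfl⟩
    rw [hF, map_sum]
    refine Submodule.sum_mem _ fun i _ => ?_
    have h1 := LinearMap.congr_fun (hconj (i : ℕ) n) (φ.1 (w i))
    rw [zpow_natCast] at h1
    change ψ (g ^ (i : ℕ)) (ψ (MulAut.conjNormal (g ^ (-((i : ℕ) : ℤ))) n : N) (φ.1 (w i))) =
      ψ n (ψ (g ^ (i : ℕ)) (φ.1 (w i))) at h1
    rw [← h1, ← hφ1]
    exact hC _ i.isLt _
  have hpW : ∀ (k : ℕ), ∀ v ∈ LinearMap.range F, ψ (g ^ k) v ∈ LinearMap.range F := by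
    intro k
    induction k with
    | zero => intro v hv; simpa using hv
    | succ k ih =>
      intro v hv
      rw [pow_succ', map_mul]
      exact hgW _ (ih v hv)
  have hinv : Inv ψ (LinearMap.range F) := by
    intro x v hv
    obtain ⟨i, n, rfl⟩ := hg x
    rw [map_mul]
    exact hpW i _ (hnW n v hv)
  have htop : LinearMap.range F = ⊤ := by
    rcases hψ.2 _ hinv with h | h
    · exfalso
      apply hφ0
      apply LinearMap.ext
      intro u
      have h1 := hC 0 ht u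
      rw [h, Submodule.mem_bot, pow_zero, map_one] at h1
      simpa using h1
    · exact h
  have h1 : Module.finrank ℂ V = Module.finrank ℂ (LinearMap.range F) := by
    rw [htop, finrank_top]
  rw [h1]
  refine (LinearMap.finrank_range_le F).trans (le_of_eq ?_)
  rw [Module.finrank_pi_fintype]
  simp

end Pool.Agent.Helper74.MX
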