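import Pool.Agent.Helper74.MX.MIN
import Pool.Agent.Helper74.MX.UP
import Pool.Agent.Helper74.MX.DOWN
import Pool.Agent.Helper74.MX.COIND
import Pool.Agent.Helper74.MX.TW
import Pool.Agent.Helper74.MX.TWSUB

set_option autoImplicit false

open Pool.Agent.Helper89.MD (Irred)

namespace Pool.Agent.Helper74.MX

theorem Irr_lin {G : Type} [Group G] {n : ℕ} (hn : 0 < n)
    (σ : G →* Matrix.GeneralLinearGroup (Fin n) ℂ) (h : Irred σ) : Irr (lin σ) := by
  have : Nonempty (Fin n) := ⟨⟨0, hn⟩⟩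
  refine ⟨inferInstance, fun W hW => h W hW⟩

theorem Irr_tens {N : Type} [Group N] {U : Type} [AddCommGroup U] [Module ℂ U]
    (η : N →* Module.End ℂ U) (hη : Irr η) (μ : N →* ℂˣ) (c : ℤ) : Irr (tens η μ c) := by
  refine ⟨hη.1, fun W hW => hη.2 W ?_⟩
  intro n v hv
  have h1 := W.smul_mem ((((μ n) ^ c : ℂˣ)⁻¹ : ℂˣ) : ℂ) (hW n v hv)
  rw [tens_apply, smul_smul, ← Units.val_mul, inv_mul_cancel, Units.val_one, one_smul] at h1
  exact h1

/-- a surjectivity remark -/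
theorem ev_range {N : Type} [Group N] {U V : Type} [AddCommGroup U] [Module ℂ U]
    [AddCommGroup V] [Module ℂ V] (η : N →* Module.End ℂ U) (hη : Irr η)
    (a : N → V →ₗ[ℂ] V) (ev : V →ₗ[ℂ] U) (hev : ev ≠ 0)
    (h : ∀ n v, ev (a n v) = η n (ev v)) : LinearMap.range ev = ⊤ := by
  rcases hη.2 (LinearMap.range ev) (by
    rintro n _ ⟨v, rfl⟩
    exact ⟨a n v, h n v⟩) with h1 | h1
  · exact absurd (LinearMap.range_eq_bot.1 h1) hev
  · exact h1

theorem zpow_sub_dvd {N : Type} [Group N] [Finite N] {p : ℕ} (hp : p.Prime) (hN : IsPGroup p N)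
    (μ : N →* ℂˣ) (s : N) (hs : μ s ≠ 1) (k : ℤ) (hk : (μ s) ^ k = 1) : (p : ℤ) ∣ k := by
  have : Fact p.Prime := ⟨hp⟩
  obtain ⟨m, hm⟩ := hN s
  have h1 : orderOf (μ s) ∣ p ^ m := by
    apply orderOf_dvd_of_pow_eq_one
    rw [← map_pow, hm, map_one]
  obtain ⟨i, hi, hi'⟩ := (Nat.dvd_prime_pow hp).1 h1
  have h2 : i ≠ 0 := by
    rintro rfl
    rw [pow_zero, orderOf_eq_one_iff] at hi'
    exact hs hi'
  have h3 : (orderOf (μ s) : ℤ) ∣ k := orderOf_dvd_iff_zpow_eq_one.2 hk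
  refine dvd_trans ?_ h3
  rw [hi']
  push_cast
  exact dvd_pow_self _ h2

theorem CORE {G : Type} [Group G] [Finite G] {p : ℕ} (hp : p.Prime) (hG : IsPGroup p G) (e : ℕ)
    (hex : ∃ ρ : G →* Matrix.GeneralLinearGroup (Fin (p ^ e)) ℂ, Irred ρ)
    (hmax : ∀ n : ℕ, 0 < n → ∀ ρ : G →* Matrix.GeneralLinearGroup (Fin n) ℂ, Irred ρ → n ≤ p ^ e)
    (N : Subgroup G) [hNn : N.Normal] (g : G) (hg : ∀ x : G, ∃ (i : ℕ) (n : N), x = g ^ i * n)
    (μ : N →* ℂˣ) (S : Finset N) (hS : ∀ s ∈ S, μ s ≠ 1)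
    (hcard : S.card + 2 ≤ p ∨ (N = ⊤ ∧ S.card + 1 ≤ p)) :
    ∃ ρ : G →* Matrix.GeneralLinearGroup (Fin (p ^ e)) ℂ, Irred ρ ∧ ∀ s ∈ S, ρ (s : G) ≠ 1 := by
  classical
  have hp1 : 1 < p := hp.one_lt
  obtain ⟨ρ, hρ⟩ := hex
  have hirr := Irr_lin (Nat.pos_of_ne_zero (pow_ne_zero e hp.ne_zero)) ρ hρ
  have hnt : Nontrivial (Fin (p ^ e) → ℂ) := hirr.1
  let ψN : N →* Module.End ℂ (Fin (p ^ e) → ℂ) := (lin ρ).comp N.subtype
  obtain ⟨U, hU, -, hU0, hUirr⟩ := MIN ψN ⊤ (by simp) (fun _ _ _ => Submodule.mem_top)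
  let η : N →* Module.End ℂ U := sub ψN U hU
  have hjne : U.subtype ≠ 0 := by
    intro h
    apply hU0
    rw [← Submodule.range_subtype U, h, LinearMap.range_zero]
  obtain ⟨j0, hj0⟩ := TWSUB hp hG N g η
  have hup : p ^ e ≤ p ^ j0 * Module.finrank ℂ U := by
    have h := UP N g hg (lin ρ) hirr η U.subtype hjne (fun n u => rfl) (p ^ j0)
      (pow_pos hp.pos _) ((hj0 _).2 (by push_cast; exact dvd_refl _))
    rwa [Module.finrank_fin_fun] at h
  have htw : ∀ c : ℤ, ∃ j : ℕ, ∀ d : ℤ, Tw N g (tens η μ c) d ↔ ((p : ℤ) ^ j) ∣ d :=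
    fun c => TWSUB hp hG N g (tens η μ c)
  choose jj hjj using htw
  -- the bad exponents
  let B1 : Finset ℕ := (Finset.range p).filter (fun c => jj c < j0)
  let B2 : N → Finset ℕ := fun s => (Finset.range p).filter (fun c => tens η μ c s = 1)
  have hnd : ∀ c c' : ℕ, c < p → c' < p → c ≠ c' → ¬ (p : ℤ) ∣ (c : ℤ) - c' := by
    intro c c' hc hc' hne hdvd
    rcases lt_trichotomy c c' with h | h | h
    · have h1 : (p : ℤ) ∣ (c' : ℤ) - c := by
        rw [← neg_sub]; exact (dvd_neg).2 hdvd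
      have := Int.le_of_dvd (by omega) h1
      omega
    · exact hne h
    · have := Int.le_of_dvd (by omega) hdvd
      omega
  have hB1 : B1.card ≤ 1 := by
    rw [Finset.card_le_one]
    intro c hc c' hc'
    by_contra hne
    simp only [B1, Finset.mem_filter, Finset.mem_range] at hc hc'
    have h1 : Tw N g (tens η μ c) ((p : ℤ) ^ (j0 - 1)) := (hjj c _).2 (pow_dvd_pow _ (by omega))
    have h2 : Tw N g (tens η μ c') ((p : ℤ) ^ (j0 - 1)) := (hjj c' _).2 (pow_dvd_pow _ (by omega))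
    have h3 := TW hp hG N g η μ c c' _ (hnd c c' hc.1 hc'.1 hne) h1 h2
    have h4 := (hj0 _).1 h3
    have h5 : p ^ j0 ∣ p ^ (j0 - 1) := by exact_mod_cast h4
    have h6 := (Nat.pow_dvd_pow_iff_le_right hp1).1 h5
    omega
  have hB1' : N = ⊤ → B1.card = 0 := by
    intro hN
    rw [Finset.card_eq_zero, Finset.filter_eq_empty_iff]
    intro c hc
    have h1 : Tw N g η 1 := by
      have hgN : g ∈ N := by rw [hN]; exact Subgroup.mem_top g
      refine ⟨LinearEquiv.ofBijective (η ⟨g, hgN⟩) ⟨?_, ?_⟩, ?_⟩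
      · intro a b hab
        have h := congrArg (η (⟨g, hgN⟩ : N)⁻¹) hab
        rwa [← Module.End.mul_apply, ← Module.End.mul_apply, ← map_mul, inv_mul_cancel,
          map_one] at h
      · intro a
        refine ⟨η (⟨g, hgN⟩ : N)⁻¹ a, ?_⟩
        rw [← Module.End.mul_apply, ← map_mul, mul_inv_cancel, map_one]
        rfl
      · intro n u
        change η ⟨g, hgN⟩ (η n u) = η (MulAut.conjNormal (g ^ (1 : ℤ)) n) (η ⟨g, hgN⟩ u)
        rw [← Module.End.mul_apply, ← Module.End.mul_apply, ← map_mul, ← map_mul]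
        congr 2
        ext
        simp [MulAut.conjNormal_apply]
    have h2 := (hj0 1).1 h1
    have h3 : p ^ j0 ∣ 1 := by exact_mod_cast h2
    have h4 : j0 = 0 := by
      by_contra h
      have := Nat.le_of_dvd one_pos h3
      have h5 : 1 < p ^ j0 := Nat.one_lt_pow h hp1
      omega
    omega
  have hB2 : ∀ s ∈ S, (B2 s).card ≤ 1 := by
    intro s hs
    rw [Finset.card_le_one]
    intro c hc c' hc'
    by_contra hne
    simp only [B2, Finset.mem_filter, Finset.mem_range] at hc hc'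
    apply hnd c c' hc.1 hc'.1 hne
    apply zpow_sub_dvd hp (hG.to_subgroup N) μ s (hS s hs)
    have hnU : Nontrivial U := hUirr.1
    obtain ⟨u, hu⟩ := exists_ne (0 : U)
    have e1 : (((μ s) ^ (c : ℤ) : ℂˣ) : ℂ) • η s u = u := by
      rw [← tens_apply, hc.2]; rfl
    have e2 : (((μ s) ^ (c' : ℤ) : ℂˣ) : ℂ) • η s u = u := by
      rw [← tens_apply, hc'.2]; rfl
    have hne0 : η s u ≠ 0 := by
      intro h
      rw [h, smul_zero] at e1
      exact hu e1.symm
    have e3 : (((μ s) ^ (c : ℤ) : ℂˣ) : ℂ) = (((μ s) ^ (c' : ℤ) : ℂˣ) : ℂ) :=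
      smul_left_injective ℂ hne0 (e1.trans e2.symm)
    rw [zpow_sub, Units.ext e3, mul_inv_cancel]
  have hcount : (B1 ∪ S.biUnion B2).card < p := by
    have h1 : (S.biUnion B2).card ≤ S.card := by
      refine (Finset.card_biUnion_le).trans ?_
      calc ∑ s ∈ S, (B2 s).card ≤ ∑ s ∈ S, 1 := Finset.sum_le_sum hB2
        _ = S.card := by simp
    have h2 := Finset.card_union_le B1 (S.biUnion B2)
    rcases hcard with h | ⟨hN, h⟩
    · omega
    · have := hB1' hN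
      omega
  obtain ⟨c, hc, hcB⟩ : ∃ c ∈ Finset.range p, c ∉ B1 ∪ S.biUnion B2 := by
    by_contra hcon
    push Not at hcon
    have := Finset.card_le_card (show Finset.range p ⊆ B1 ∪ S.biUnion B2 from hcon)
    rw [Finset.card_range] at this
    omega
  rw [Finset.mem_union, not_or, Finset.mem_biUnion] at hcB
  have hc1 : j0 ≤ jj c := by
    by_contra h
    exact hcB.1 (Finset.mem_filter.2 ⟨hc, by omega⟩)
  have hc2 : ∀ s ∈ S, tens η μ c s ≠ 1 := by
    intro s hs h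
    exact hcB.2 ⟨s, hs, Finset.mem_filter.2 ⟨hc, h⟩⟩
  have hnU : Nontrivial U := hUirr.1
  have hirrc := Irr_tens η hUirr μ c
  obtain ⟨n, σ, ev, hn, hσ, hev, hevN⟩ := COIND N (tens η μ c)
  have hdown := DOWN N g (lin σ) (tens η μ c) hirrc ev hev hevN (p ^ j0) (by
    intro d hd0 hdt hTw
    have h1 := (hjj c d).1 hTw
    have h2 : ((p : ℤ) ^ j0) ∣ d := dvd_trans (pow_dvd_pow _ hc1) h1
    have h3 := Int.le_of_dvd hd0 h2
    push_cast at hdt
    omega)
  rw [Module.finrank_fin_fun] at hdown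
  have hle := hmax n hn σ hσ
  have hneq : n = p ^ e := le_antisymm hle (hup.trans hdown)
  subst hneq
  refine ⟨σ, hσ, ?_⟩
  intro s hs h1
  apply hc2 s hs
  ext u : 1
  have hr := ev_range (tens η μ c) hirrc (fun m => lin σ m) ev hev hevN
  obtain ⟨v, hv⟩ : u ∈ LinearMap.range ev := by rw [hr]; exact Submodule.mem_top
  have h2 := hevN s v
  rw [h1] at h2
  rw [← hv, ← h2]
  simp

end Pool.Agent.Helper74.MX
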