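import Pool.Agent.Helper89.MD.SEP
import Pool.Agent.Helper89.MD.CENT

set_option autoImplicit false

open scoped commutatorElement

namespace Pool.Agent.Helper74.MX

/-- Reduction to central elements modulo the commutator subgroup of `N`.
PROOF: pass to `Q = G ⧸ ⁅N, N⁆` (a finite `p`-group). For `s ∈ S` its image is `≠ 1`, so `CENT`
(Pool.Agent.Helper89.MD.CENT) gives a central `z ≠ 1` of `Q` in the normal closure of the image;
lift it to `z s ∈ normalClosure {s}` in `G` (the image of `normalClosure {s}` is the normal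
closure of the image). Let `N1 = N ⊔ closure (z '' S)`: normal (its image in `Q` is the image of
`N`, normal, times central elements), and abelian modulo `⁅N, N⁆`, so `⁅N1, N1⁆ ≤ ⁅N, N⁆` (the
images of `N` and of the `z s` commute with each other). `G ⧸ N` is cyclic, generated by the image
of some `g`, so `x = g ^ i * n` with `n ∈ N ≤ N1` (`i : ℕ` since `G` is finite). The image of
`N1` in `Q` (or `N1 ⧸ (⁅N, N⁆).subgroupOf N1`) is a finite abelian `p`-group in which the images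
of the `z s`, `s ∈ S`, are nontrivial, at most `p` elements: `SEP`
(Pool.Agent.Helper89.MD.SEP) gives a character of it which is `≠ 1` on all of them; compose. -/
theorem RED {G : Type} [Group G] [Finite G] {p : ℕ} (hp : p.Prime) (hG : IsPGroup p G)
    (N : Subgroup G) [N.Normal] (hc : IsCyclic (G ⧸ N)) (S : Finset G)
    (hS : ∀ s ∈ S, s ∉ ⁅N, N⁆) (hcard : S.card ≤ p) :
    ∃ (N1 : Subgroup G) (_ : N1.Normal) (g : G) (z : G → N1) (μ : N1 →* ℂˣ),
      (∀ x : G, ∃ (i : ℕ) (n : N1), x = g ^ i * n) ∧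
      ∀ s ∈ S, (z s : G) ∈ Subgroup.normalClosure {s} ∧ μ (z s) ≠ 1 := by
  classical
  have : Fact p.Prime := ⟨hp⟩
  have hDn : (⁅N, N⁆ : Subgroup G).Normal := inferInstance
  let q : G →* G ⧸ ⁅N, N⁆ := QuotientGroup.mk' ⁅N, N⁆
  have hqs : Function.Surjective q := QuotientGroup.mk'_surjective _
  have hq1 : ∀ x : G, q x = 1 ↔ x ∈ ⁅N, N⁆ := fun x => QuotientGroup.eq_one_iff x
  have hQp : IsPGroup p (G ⧸ ⁅N, N⁆) := hG.to_quotient _
  have hz : ∀ s ∈ S, ∃ z : G, z ∈ Subgroup.normalClosure {s} ∧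
      (∀ y : G ⧸ ⁅N, N⁆, y * q z = q z * y) ∧ q z ≠ 1 := by
    intro s hs
    have hs1 : q s ≠ 1 := fun h => hS s hs ((hq1 s).1 h)
    obtain ⟨c, hc1, -, hcc, hcn⟩ := Helper89.MD.CENT hQp (q s) hs1
    have hmap : Subgroup.normalClosure {q s} ≤ (Subgroup.normalClosure {s}).map q := by
      have : ((Subgroup.normalClosure ({s} : Set G)).map q).Normal :=
        Subgroup.Normal.map inferInstance q hqs
      refine Subgroup.normalClosure_le_normal ?_
      intro x hx
      rw [Set.mem_singleton_iff] at hx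
      rw [hx]
      exact ⟨s, Subgroup.subset_normalClosure rfl, rfl⟩
    obtain ⟨z, hz, rfl⟩ := hmap hcn
    exact ⟨z, hz, hcc, hc1⟩
  choose! z hzn hzc hz1 using hz
  let Zc : Subgroup (G ⧸ ⁅N, N⁆) := Subgroup.closure (q '' (z '' (S : Set G)))
  have hZc : Zc ≤ Subgroup.center (G ⧸ ⁅N, N⁆) := by
    rw [Subgroup.closure_le]
    rintro _ ⟨_, ⟨s, hs, rfl⟩, rfl⟩
    exact Subgroup.mem_center_iff.2 (hzc s hs)
  have hZn : Zc.Normal := by
    refine ⟨fun a ha g => ?_⟩
    have h1 := Subgroup.mem_center_iff.1 (hZc ha) g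
    rw [h1, mul_inv_cancel_right]
    exact ha
  have hNn : (N.map q).Normal := Subgroup.Normal.map inferInstance q hqs
  let K : Subgroup (G ⧸ ⁅N, N⁆) := N.map q ⊔ Zc
  have hKn : K.Normal := Subgroup.sup_normal _ _
  have hNN : ∀ x ∈ N.map q, ∀ y ∈ N.map q, x * y = y * x := by
    rintro _ ⟨a, ha, rfl⟩ _ ⟨b, hb, rfl⟩
    have h1 : ⁅a, b⁆ ∈ ⁅N, N⁆ := Subgroup.commutator_mem_commutator ha hb
    have h2 : q ⁅a, b⁆ = 1 := (hq1 _).2 h1
    rw [map_commutatorElement, commutatorElement_eq_one_iff_mul_comm] at h2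
    exact h2
  have hcK : ∀ x ∈ K, ∀ y ∈ K, x * y = y * x := by
    have h1 : K ≤ Subgroup.centralizer (N.map q : Set (G ⧸ ⁅N, N⁆)) := by
      refine sup_le ?_ (hZc.trans (Subgroup.center_le_centralizer _))
      intro x hx
      exact Subgroup.mem_centralizer_iff.2 fun y hy => hNN y hy x hx
    have h2 : K ≤ Subgroup.centralizer (K : Set (G ⧸ ⁅N, N⁆)) := by
      refine sup_le ?_ (hZc.trans (Subgroup.center_le_centralizer _))
      intro x hx
      refine Subgroup.mem_centralizer_iff.2 fun y hy => ?_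
      exact (Subgroup.mem_centralizer_iff.1 (h1 hy) x hx).symm
    intro x hx y hy
    exact Subgroup.mem_centralizer_iff.1 (h2 hy) x hx
  let N1 : Subgroup G := K.comap q
  have hN1n : N1.Normal := inferInstance
  have hNN1 : N ≤ N1 := fun x hx => (le_sup_left : N.map q ≤ K) ⟨x, hx, rfl⟩
  have hzN1 : ∀ s ∈ S, z s ∈ N1 := by
    intro s hs
    exact (le_sup_right : Zc ≤ K) (Subgroup.subset_closure ⟨z s, ⟨s, hs, rfl⟩, rfl⟩)
  let φ : N1 →* K := (q.comp N1.subtype).codRestrict K (fun x => x.2)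
  let zN : G → N1 := fun s => if h : s ∈ S then ⟨z s, hzN1 s h⟩ else 1
  have hzN : ∀ s ∈ S, ((zN s : N1) : G) = z s := by
    intro s hs
    simp only [zN, dif_pos hs]
  obtain ⟨μ, hμ⟩ := Helper89.MD.SEP (hQp.to_subgroup K)
    (fun x y => Subtype.ext (hcK x.1 x.2 y.1 y.2)) (S.image fun s => φ (zN s)) (by
      intro w hw
      obtain ⟨s, hs, rfl⟩ := Finset.mem_image.1 hw
      intro h
      apply hz1 s hs
      have h1 := congrArg Subtype.val h
      have h2 : ((φ (zN s) : K) : G ⧸ ⁅N, N⁆) = q (zN s : G) := rfl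
      rw [h2, hzN s hs] at h1
      exact h1) (Finset.card_image_le.trans hcard)
  obtain ⟨g', hg'⟩ := hc.exists_generator
  obtain ⟨g, rfl⟩ := QuotientGroup.mk_surjective g'
  refine ⟨N1, hN1n, g, zN, μ.comp φ, ?_, ?_⟩
  · intro x
    have h1 : (x : G ⧸ N) ∈ Subgroup.zpowers (g : G ⧸ N) := hg' _
    rw [← mem_powers_iff_mem_zpowers] at h1
    obtain ⟨i, hi⟩ := h1
    have h2 : ((g ^ i : G) : G ⧸ N) = (x : G ⧸ N) := hi
    rw [QuotientGroup.eq] at h2
    exact ⟨i, ⟨(g ^ i)⁻¹ * x, hNN1 h2⟩, by simp⟩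
  · intro s hs
    refine ⟨by rw [hzN s hs]; exact hzn s hs, ?_⟩
    exact hμ _ (Finset.mem_image_of_mem _ hs)

end Pool.Agent.Helper74.MX
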