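import Pool.Agent.Helper74.MX.ORB

set_option autoImplicit false

namespace Pool.Agent.Helper74.MX

/-- an action on a line is given by a character -/
theorem SM_line {H : Type} [Group H] {U : Type} [AddCommGroup U] [Module ℂ U]
    (σ : H →* Module.End ℂ U) (h1 : Module.finrank ℂ U = 1) :
    ∃ (u : U) (μ : H →* ℂˣ), u ≠ 0 ∧ ∀ h : H, σ h u = ((μ h : ℂˣ) : ℂ) • u := by
  obtain ⟨u, hu0, hu⟩ := finrank_eq_one_iff'.1 h1
  choose c hc using hu
  have hinj : ∀ a b : ℂ, a • u = b • u → a = b := fun a b h => smul_left_injective ℂ hu0 h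
  let m : H →* ℂ :=
    { toFun := fun h => c (σ h u)
      map_one' := by
        apply hinj
        rw [hc, map_one, one_smul]
        rfl
      map_mul' := by
        intro x y
        apply hinj
        rw [hc, map_mul, Module.End.mul_apply]
        conv_lhs => rw [← hc (σ y u)]
        rw [map_smul]
        conv_lhs => rw [← hc (σ x u)]
        rw [smul_smul, mul_comm] }
  refine ⟨u, m.toHomUnits, hu0, ?_⟩
  intro h
  rw [MonoidHom.coe_toHomUnits]
  exact (hc (σ h u)).symm

theorem SM_index {G : Type} [Group G] [Finite G] {p : ℕ} (hp : p.Prime) (hG : IsPGroup p G)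
    (T : Subgroup G) (hT : T ≠ ⊤) : ∃ n : ℕ, T.index = p ^ (n + 1) := by
  have : Fact p.Prime := ⟨hp⟩
  obtain ⟨n, hn⟩ := hG.index T
  cases n with
  | zero =>
    rw [pow_zero, Subgroup.index_eq_one] at hn
    exact absurd hn hT
  | succ n => exact ⟨n, hn⟩

theorem SM_one {G : Type} [Group G] [Finite G] {p : ℕ} (hp : p.Prime) (hG : IsPGroup p G)
    {V : Type} [AddCommGroup V] [Module ℂ V] [FiniteDimensional ℂ V]
    (ρ : G →* Module.End ℂ V) (hρ : Irr ρ) (h : Module.finrank ℂ V < p) :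
    Module.finrank ℂ V = 1 := by
  by_contra h1
  obtain ⟨T, W, hT, hW, -, hle⟩ := ORB hp hG ρ hρ h1
  obtain ⟨n, hn⟩ := SM_index hp hG T hT
  have hW1 : 0 < Module.finrank ℂ W := by
    rw [Nat.pos_iff_ne_zero]
    intro h0
    exact hW (Submodule.finrank_eq_zero.1 h0)
  have h2 : p ≤ T.index := by
    rw [hn]
    exact Nat.le_self_pow (Nat.succ_ne_zero n) p
  have h3 : p * 1 ≤ T.index * Module.finrank ℂ W := Nat.mul_le_mul h2 hW1
  omega

/-- Irreducible representations of dimension less than `p` have dimension 1, and those of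
dimension less than `p ^ 2` contain an eigenvector of a normal subgroup with cyclic quotient.
PROOF: (1) if `finrank ≠ 1`, `ORB` gives `T ≠ ⊤`, `p ≤ T.index` (index divides the order, a power
of `p`), and `finrank W ≥ 1`, so `p ≤ finrank V`.
(2) If `finrank V = 1` take `N = ⊤`, `g = 1`. Otherwise `ORB` gives `T` with
`T.index * finrank W < p ^ 2`, so `T.index = p`, `T` is normal (maximal subgroup of a `p`-group,
or `Subgroup.normal_of_index_eq_minFac_card`), `G ⧸ T` has prime order, so it is cyclic (any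
`g ∉ T` works), and `finrank W < p`. Restrict `ρ` to `T` and `W` and take a minimal invariant
subspace `U` (`MIN`, for the group `T`); `finrank U < p`, so `finrank U = 1` by (1) applied to
`T`, and `T` acts on `U` by a character `μ`. -/
theorem SM {G : Type} [Group G] [Finite G] {p : ℕ} (hp : p.Prime) (hG : IsPGroup p G)
    {V : Type} [AddCommGroup V] [Module ℂ V] [FiniteDimensional ℂ V]
    (ρ : G →* Module.End ℂ V) (hρ : Irr ρ) :
    (Module.finrank ℂ V < p → Module.finrank ℂ V = 1) ∧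
    (Module.finrank ℂ V < p ^ 2 → ∃ (N : Subgroup G) (g : G) (v : V) (μ : N →* ℂˣ), N.Normal ∧
      (∀ x : G, ∃ (i : ℕ) (n : N), x = g ^ i * n) ∧ v ≠ 0 ∧
      ∀ n : N, ρ n v = ((μ n : ℂˣ) : ℂ) • v) := by
  refine ⟨SM_one hp hG ρ hρ, ?_⟩
  intro hlt
  by_cases h1 : Module.finrank ℂ V = 1
  · obtain ⟨u, μ, hu, hμ⟩ := SM_line (ρ.comp (⊤ : Subgroup G).subtype) h1
    refine ⟨⊤, 1, u, μ, inferInstance, ?_, hu, fun n => hμ n⟩
    intro x
    exact ⟨0, ⟨x, Subgroup.mem_top x⟩, by simp⟩
  have hpf : Fact p.Prime := ⟨hp⟩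
  obtain ⟨T, W, hT, hW, hinv, hle⟩ := ORB hp hG ρ hρ h1
  obtain ⟨n, hn⟩ := SM_index hp hG T hT
  have hW1 : 0 < Module.finrank ℂ W := by
    rw [Nat.pos_iff_ne_zero]
    intro h0
    exact hW (Submodule.finrank_eq_zero.1 h0)
  have hn0 : n = 0 := by
    by_contra hne
    have h2 : p ^ 2 ≤ p ^ (n + 1) := Nat.pow_le_pow_right hp.pos (by omega)
    have h3 : p ^ (n + 1) * 1 ≤ T.index * Module.finrank ℂ W := by
      rw [hn]
      exact Nat.mul_le_mul le_rfl hW1
    omega
  have hidx : T.index = p := by rw [hn, hn0, zero_add, pow_one]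
  have hWlt : Module.finrank ℂ W < p := by
    by_contra hge
    have h3 : p * p ≤ T.index * Module.finrank ℂ W := by
      rw [hidx]
      exact Nat.mul_le_mul le_rfl (not_lt.1 hge)
    have h4 : p ^ 2 = p * p := pow_two p
    omega
  have hcard : ∃ m, Nat.card G = p ^ m := hG.exists_card_eq
  obtain ⟨m, hm⟩ := hcard
  have hm0 : m ≠ 0 := by
    rintro rfl
    rw [pow_zero] at hm
    have h2 := T.index_dvd_card
    rw [hm, hidx] at h2
    have h3 := Nat.le_of_dvd one_pos h2
    exact absurd hp.one_lt (by omega)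
  have hN : T.Normal := by
    apply Subgroup.normal_of_index_eq_minFac_card
    rw [hm, hidx, hp.pow_minFac hm0]
  obtain ⟨g, hg⟩ : ∃ g : G, g ∉ T := by
    by_contra hcon
    push Not at hcon
    exact hT (Subgroup.eq_top_iff' T |>.2 hcon)
  have hcyc : ∀ x : G, ∃ (i : ℕ) (n : T), x = g ^ i * n := by
    intro x
    have hq : Nat.card (G ⧸ T) = p := hidx
    have hg1 : (QuotientGroup.mk g : G ⧸ T) ≠ 1 := by
      intro h
      exact hg ((QuotientGroup.eq_one_iff g).1 h)
    obtain ⟨i, hi⟩ := mem_powers_of_prime_card hq hg1 (g' := (QuotientGroup.mk x : G ⧸ T))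
    refine ⟨i, ⟨(g ^ i)⁻¹ * x, ?_⟩, by simp⟩
    rw [← QuotientGroup.eq]
    simpa using hi
  let σ : T →* Module.End ℂ V := ρ.comp T.subtype
  have hinvσ : Inv σ W := fun t v hv => hinv t t.2 v hv
  obtain ⟨U, hU, hUW, hU0, hUirr⟩ := MIN σ W hW hinvσ
  have hUlt : Module.finrank ℂ U < p := lt_of_le_of_lt (Submodule.finrank_mono hUW) hWlt
  have hU1 : Module.finrank ℂ U = 1 := SM_one hp (hG.to_subgroup T) (sub σ U hU) hUirr hUlt
  obtain ⟨u, μ, hu, hμ⟩ := SM_line (sub σ U hU) hU1
  refine ⟨T, g, u, μ, hN, hcyc, ?_, ?_⟩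
  · intro h
    exact hu (Subtype.ext h)
  · intro t
    have h2 := congrArg (Subtype.val : U → V) (hμ t)
    rw [sub_coe] at h2
    exact h2

end Pool.Agent.Helper74.MX
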