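import Pool.Agent.Helper74.MX.CORE
import Pool.Agent.Helper74.MX.RED
import Pool.Agent.Helper74.MX.SM
import Pool.Agent.Helper89.MD.SEP
import Pool.Agent.Helper89.MD.CENT

set_option autoImplicit false

open Pool.Agent.Helper89.MD (Irred)
open scoped commutatorElement

namespace Pool.Agent.Helper74.MX

theorem normalClosure_one {G : Type} [Group G] {n : ℕ}
    (σ : G →* Matrix.GeneralLinearGroup (Fin n) ℂ) (s z : G)
    (hz : z ∈ Subgroup.normalClosure {s}) (h : σ s = 1) : σ z = 1 := by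
  have h1 : Subgroup.normalClosure {s} ≤ σ.ker :=
    Subgroup.normalClosure_le_normal (by
      rw [Set.singleton_subset_iff]
      exact h)
  exact h1 hz

/-- Theorem 1. -/
theorem CYC {G : Type} [Group G] [Finite G] {p : ℕ} (hp : p.Prime) (hG : IsPGroup p G) (e : ℕ)
    (hex : ∃ ρ : G →* Matrix.GeneralLinearGroup (Fin (p ^ e)) ℂ, Irred ρ)
    (hmax : ∀ n : ℕ, 0 < n → ∀ ρ : G →* Matrix.GeneralLinearGroup (Fin n) ℂ, Irred ρ → n ≤ p ^ e)
    (N : Subgroup G) [N.Normal] (hc : IsCyclic (G ⧸ N))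
    (S : Finset G) (hS : ∀ s ∈ S, s ∉ ⁅N, N⁆) (hcard : S.card + 2 ≤ p) :
    ∃ ρ : G →* Matrix.GeneralLinearGroup (Fin (p ^ e)) ℂ, Irred ρ ∧ ∀ s ∈ S, ρ s ≠ 1 := by
  classical
  obtain ⟨N1, hN1, g, z, μ, hg, hz⟩ := RED hp hG N hc S hS (by omega)
  obtain ⟨σ, hσ, hσS⟩ := CORE hp hG e hex hmax N1 g hg μ (S.image z) (by
    intro s hs
    obtain ⟨t, ht, rfl⟩ := Finset.mem_image.1 hs
    exact (hz t ht).2) (Or.inl (by have := Finset.card_image_le (s := S) (f := z); omega))
  refine ⟨σ, hσ, fun s hs h => ?_⟩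
  exact hσS (z s) (Finset.mem_image_of_mem _ hs) (normalClosure_one σ s _ (hz s hs).1 h)

/-- Central elements act as scalars. -/
theorem central_scalar {G : Type} [Group G] {V : Type} [AddCommGroup V] [Module ℂ V]
    [FiniteDimensional ℂ V] (ρ : G →* Module.End ℂ V) (hρ : Irr ρ) (z : G)
    (hz : ∀ x, x * z = z * x) : ∃ c : ℂ, ∀ v, ρ z v = c • v := by
  have := hρ.1
  obtain ⟨c, hc⟩ := Module.End.exists_eigenvalue (ρ z)
  refine ⟨c, ?_⟩
  rcases hρ.2 (Module.End.eigenspace (ρ z) c) (by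
    intro g v hv
    rw [Module.End.mem_eigenspace_iff] at hv ⊢
    rw [← Module.End.mul_apply, ← map_mul, ← hz g, map_mul, Module.End.mul_apply, hv, map_smul])
    with h | h
  · exact absurd h hc
  · intro v
    have hv : v ∈ Module.End.eigenspace (ρ z) c := by rw [h]; exact Submodule.mem_top
    exact Module.End.mem_eigenspace_iff.1 hv

/-- The one-dimensional action attached to a character. -/
def chr {H : Type} [Group H] (μ : H →* ℂˣ) : H →* Module.End ℂ ℂ where
  toFun h := ((μ h : ℂˣ) : ℂ) • (1 : Module.End ℂ ℂ)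
  map_one' := by simp
  map_mul' := by intro a b; rw [map_mul, Units.val_mul, smul_mul_smul_comm, one_mul]

theorem chr_apply {H : Type} [Group H] (μ : H →* ℂˣ) (h : H) (x : ℂ) :
    chr μ h x = ((μ h : ℂˣ) : ℂ) * x := rfl

theorem chr_mem {H : Type} [Group H] {V : Type} [AddCommGroup V] [Module ℂ V] (μ : H →* ℂˣ)
    (h : H) (ev : V →ₗ[ℂ] ℂ) (hev : ev ≠ 0) (hv : ∀ v, ev v = chr μ h (ev v)) : μ h = 1 := by
  obtain ⟨v, hv0⟩ : ∃ v, ev v ≠ 0 := by
    by_contra hcon
    push Not at hcon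
    exact hev (LinearMap.ext hcon)
  have h1 := hv v
  rw [chr_apply] at h1
  apply Units.ext
  have h2 : (((μ h : ℂˣ) : ℂ) - 1) * ev v = 0 := by rw [sub_mul, one_mul, ← h1, sub_self]
  rcases mul_eq_zero.1 h2 with h3 | h3
  · rw [Units.val_one]; exact sub_eq_zero.1 h3
  · exact absurd h3 hv0

/-- Degree one everywhere: the group is abelian. -/
theorem abel {G : Type} [Group G] [Finite G] {p : ℕ} [Fact p.Prime] (hG : IsPGroup p G)
    (hmax : ∀ n : ℕ, 0 < n → ∀ ρ : G →* Matrix.GeneralLinearGroup (Fin n) ℂ, Irred ρ → n ≤ 1)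
    (x y : G) : x * y = y * x := by
  by_contra hne
  have hc : ⁅x, y⁆ ≠ 1 := fun h => hne (commutatorElement_eq_one_iff_mul_comm.1 h)
  let H : Subgroup G := Subgroup.zpowers ⁅x, y⁆
  have hHp : IsPGroup p H := hG.to_subgroup H
  obtain ⟨μ, hμ⟩ := Pool.Agent.Helper89.MD.SEP hHp (fun a b => by
    obtain ⟨a, i, rfl⟩ := a
    obtain ⟨b, j, rfl⟩ := b
    ext
    simp only [Subgroup.coe_mul]
    rw [← zpow_add, ← zpow_add, add_comm]) {⟨⁅x, y⁆, Subgroup.mem_zpowers _⟩} (by
      intro z hz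
      rw [Finset.mem_singleton] at hz
      subst hz
      intro h
      exact hc (congrArg Subtype.val h)) (by
      rw [Finset.card_singleton]
      exact (Fact.out : p.Prime).one_lt.le)
  obtain ⟨n, σ, ev, hn, hσ, hev, hevN⟩ := COIND H (chr μ)
  have hn1 := hmax n hn σ hσ
  have hn' : n = 1 := by omega
  subst hn'
  have hσc : σ ⁅x, y⁆ = 1 := by
    rw [map_commutatorElement, commutatorElement_eq_one_iff_mul_comm]
    apply Units.ext
    rw [Units.val_mul, Units.val_mul]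
    ext i j
    rw [Matrix.mul_apply, Matrix.mul_apply]
    simp only [Finset.univ_unique, Fin.default_eq_zero, Finset.sum_singleton]
    have hi : i = 0 := Subsingleton.elim _ _
    have hj : j = 0 := Subsingleton.elim _ _
    subst hi; subst hj
    exact mul_comm _ _
  refine hμ _ (Finset.mem_singleton_self _) (chr_mem μ _ ev hev (fun v => ?_))
  have h := hevN ⟨⁅x, y⁆, Subgroup.mem_zpowers _⟩ v
  rw [← h]
  change _ = ev (Matrix.mulVec (σ ⁅x, y⁆).1 v)
  rw [hσc, Units.val_one, Matrix.one_mulVec]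

/-- The degree zero exponent. -/
theorem EXP0 {G : Type} [Group G] [Finite G] {p : ℕ} [Fact p.Prime] (hG : IsPGroup p G)
    (hmax : ∀ n : ℕ, 0 < n → ∀ ρ : G →* Matrix.GeneralLinearGroup (Fin n) ℂ, Irred ρ → n ≤ 1)
    (S : Finset G) (hS : ∀ s ∈ S, s ≠ 1) (hcard : S.card ≤ p) :
    ∃ ρ : G →* Matrix.GeneralLinearGroup (Fin 1) ℂ, Irred ρ ∧ ∀ s ∈ S, ρ s ≠ 1 := by
  obtain ⟨μ, hμ⟩ := Pool.Agent.Helper89.MD.SEP hG (abel hG hmax) S hS hcard
  obtain ⟨n, σ, ev, hn, hσ, hev, hevN⟩ := COIND (⊤ : Subgroup G)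
    (chr (μ.comp (⊤ : Subgroup G).subtype))
  have hn1 := hmax n hn σ hσ
  have hn' : n = 1 := by omega
  subst hn'
  refine ⟨σ, hσ, fun s hs h => ?_⟩
  refine hμ s hs (chr_mem (μ.comp (⊤ : Subgroup G).subtype) ⟨s, Subgroup.mem_top s⟩ ev hev
    (fun v => ?_))
  have h1 := hevN ⟨s, Subgroup.mem_top s⟩ v
  rw [← h1]
  change _ = ev (Matrix.mulVec (σ s).1 v)
  rw [h, Units.val_one, Matrix.one_mulVec]

/-- The stabiliser of a line. -/
def lineStab {G : Type} [Group G] {V : Type} [AddCommGroup V] [Module ℂ V]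
    (ρ : G →* Module.End ℂ V) (v : V) : Subgroup G where
  carrier := {x | ∃ c : ℂˣ, ρ x v = (c : ℂ) • v}
  mul_mem' := by
    rintro x y ⟨c, hc⟩ ⟨d, hd⟩
    refine ⟨d * c, ?_⟩
    rw [map_mul, Module.End.mul_apply, hd, map_smul, hc, smul_smul, Units.val_mul]
  one_mem' := ⟨1, by simp⟩
  inv_mem' := by
    rintro x ⟨c, hc⟩
    refine ⟨c⁻¹, ?_⟩
    have h : ρ x⁻¹ (ρ x v) = v := by
      rw [← Module.End.mul_apply, ← map_mul, inv_mul_cancel, map_one]; rfl
    rw [hc, map_smul] at h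
    calc ρ x⁻¹ v = ((c⁻¹ : ℂˣ) : ℂ) • ((c : ℂ) • ρ x⁻¹ v) := by
          rw [smul_smul, ← Units.val_mul, inv_mul_cancel, Units.val_one, one_smul]
      _ = _ := by rw [h]

theorem EIG {G : Type} [Group G] {V : Type} [AddCommGroup V] [Module ℂ V]
    (ρ : G →* Module.End ℂ V) (v : V) (hv : v ≠ 0) (H : Subgroup G)
    (hH : H ≤ lineStab ρ v) : ∃ μ : H →* ℂˣ, ∀ x : H, ρ x v = ((μ x : ℂˣ) : ℂ) • v := by
  choose f hf using fun x : H => hH x.2
  have huniq : ∀ (c d : ℂˣ), (c : ℂ) • v = (d : ℂ) • v → c = d := by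
    intro c d h
    apply Units.ext
    exact smul_left_injective ℂ hv h
  refine ⟨⟨⟨f, ?_⟩, ?_⟩, hf⟩
  · apply huniq
    rw [← hf 1]
    simp
  · intro x y
    apply huniq
    rw [← hf (x * y)]
    change ρ ((x : G) * y) v = ((f x * f y : ℂˣ) : ℂ) • v
    rw [map_mul, Module.End.mul_apply, hf y, map_smul, hf x, smul_smul, mul_comm, Units.val_mul]

/-- Theorem 2. -/
theorem EXP2 {G : Type} [Group G] [Finite G] {p : ℕ} (hp : p.Prime) (hG : IsPGroup p G) (e : ℕ)
    (hex : ∃ ρ : G →* Matrix.GeneralLinearGroup (Fin (p ^ e)) ℂ, Irred ρ)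
    (hmax : ∀ n : ℕ, 0 < n → ∀ ρ : G →* Matrix.GeneralLinearGroup (Fin n) ℂ, Irred ρ → n ≤ p ^ e)
    (he : e ≤ 2) (S : Finset G) (hS : ∀ s ∈ S, s ≠ 1) (hcard : S.card + e ≤ p) :
    ∃ ρ : G →* Matrix.GeneralLinearGroup (Fin (p ^ e)) ℂ, Irred ρ ∧ ∀ s ∈ S, ρ s ≠ 1 := by
  classical
  have hfp : Fact p.Prime := ⟨hp⟩
  rcases Nat.eq_zero_or_pos e with he0 | he0
  · subst he0
    have h : ∀ m : ℕ, m = 1 → ∃ ρ : G →* Matrix.GeneralLinearGroup (Fin m) ℂ, Irred ρ ∧
        ∀ s ∈ S, ρ s ≠ 1 := by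
      rintro m rfl
      exact EXP0 hG (fun n hn ρ hρ => by simpa using hmax n hn ρ hρ) S hS (by omega)
    exact h _ (pow_zero p)
  -- central elements
  have hz : ∀ s : G, ∃ z : G, s ∈ S → z ≠ 1 ∧ (∀ x, x * z = z * x) ∧
      z ∈ Subgroup.normalClosure {s} := by
    intro s
    by_cases hs : s ∈ S
    · obtain ⟨z, h1, -, h3, h4⟩ := Pool.Agent.Helper89.MD.CENT hG s (hS s hs)
      exact ⟨z, fun _ => ⟨h1, h3, h4⟩⟩
    · exact ⟨1, fun h => absurd h hs⟩
  choose z hz using hz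
  have hzc : ∀ s ∈ S, z s ∈ Subgroup.center G := by
    intro s hs
    rw [Subgroup.mem_center_iff]
    intro x
    exact (hz s hs).2.1 x
  let zz : S → Subgroup.center G := fun s => ⟨z s, hzc s s.2⟩
  obtain ⟨ω, hω⟩ := Pool.Agent.Helper89.MD.SEP (C := Subgroup.center G)
    (hG.to_subgroup _) (fun a b => by
      ext
      exact ((Subgroup.mem_center_iff.1 a.2) b).symm) (Finset.univ.image zz) (by
      intro w hw
      obtain ⟨s, -, rfl⟩ := Finset.mem_image.1 hw
      intro h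
      exact (hz s s.2).1 (congrArg Subtype.val h)) (by
      refine Finset.card_image_le.trans ?_
      rw [Finset.card_univ, Fintype.card_coe]
      omega)
  obtain ⟨n, σ, ev, hn, hσ, hev, hevN⟩ := COIND (Subgroup.center G) (chr ω)
  have hirr := Irr_lin hn σ hσ
  -- the central elements act by the scalars `ω`
  have hsc : ∀ s ∈ S, ∃ c : ℂ, c ≠ 1 ∧ ∀ v, lin σ (z s) v = c • v := by
    intro s hs
    obtain ⟨c, hc⟩ := central_scalar (lin σ) hirr (z s) (hz s hs).2.1
    refine ⟨c, ?_, hc⟩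
    rintro rfl
    refine hω (zz ⟨s, hs⟩) (Finset.mem_image_of_mem _ (Finset.mem_univ _))
      (chr_mem ω _ ev hev (fun v => ?_))
    rw [← hevN (zz ⟨s, hs⟩) v]
    change _ = ev (lin σ (z s) v)
    rw [hc v, one_smul]
  have hle := hmax n hn σ hσ
  rcases Nat.lt_or_ge n (p ^ e) with hlt | hge
  · -- small degree
    have hfr : Module.finrank ℂ (Fin n → ℂ) = n := Module.finrank_fin_fun ℂ
    obtain ⟨hsm1, hsm2⟩ := SM hp hG (lin σ) hirr
    rw [hfr] at hsm1 hsm2
    have hn2 : n < p ^ 2 := lt_of_lt_of_le hlt (Nat.pow_le_pow_right hp.pos he)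
    -- a normal subgroup containing the `z s` and acting by a character on a vector
    have key : ∃ (N : Subgroup G) (g : G) (v : Fin n → ℂ) (μ : N →* ℂˣ), N.Normal ∧
        (∀ x : G, ∃ (i : ℕ) (n : N), x = g ^ i * n) ∧ v ≠ 0 ∧
        (∀ m : N, lin σ m v = ((μ m : ℂˣ) : ℂ) • v) ∧ (∀ s ∈ S, z s ∈ N) ∧
        (S.card + 2 ≤ p ∨ (N = ⊤ ∧ S.card + 1 ≤ p)) := by
      by_cases hn1 : n = 1
      · subst hn1
        refine ⟨⊤, 1, 1, ⟨⟨fun m => Matrix.GeneralLinearGroup.det (σ m), by simp⟩,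
          by intro a b; simp⟩, inferInstance, fun x => ⟨0, ⟨x, Subgroup.mem_top x⟩, by simp⟩,
          one_ne_zero, ?_, fun s _ => Subgroup.mem_top _, ?_⟩
        · intro m
          rw [lin_apply]
          ext i
          have hi : i = 0 := Subsingleton.elim _ _
          subst hi
          simp [Matrix.mulVec, dotProduct, Matrix.det_unique]
        · right
          exact ⟨rfl, by omega⟩
      · obtain ⟨N, g, v, μ, hN, hg, hv, hμ⟩ := hsm2 hn2
        obtain ⟨μ', hμ'⟩ := EIG (lin σ) v hv (N ⊔ Subgroup.center G) (sup_le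
          (fun x hx => ⟨μ ⟨x, hx⟩, hμ ⟨x, hx⟩⟩) (fun x hx => by
            obtain ⟨c, hc⟩ := central_scalar (lin σ) hirr x (fun y =>
              (Subgroup.mem_center_iff.1 hx) y)
            have hc0 : c ≠ 0 := by
              rintro rfl
              have h := hc v
              rw [zero_smul] at h
              have h' : lin σ x⁻¹ (lin σ x v) = v := by
                rw [← Module.End.mul_apply, ← map_mul, inv_mul_cancel, map_one]; rfl
              rw [h, map_zero] at h'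
              exact hv h'.symm
            exact ⟨Units.mk0 c hc0, hc v⟩))
        refine ⟨N ⊔ Subgroup.center G, g, v, μ', inferInstance, ?_, hv, hμ', ?_, ?_⟩
        · intro x
          obtain ⟨i, m, hx⟩ := hg x
          exact ⟨i, ⟨m, (le_sup_left : N ≤ N ⊔ Subgroup.center G) m.2⟩, hx⟩
        · intro s hs
          exact (le_sup_right : Subgroup.center G ≤ N ⊔ Subgroup.center G) (hzc s hs)
        · left
          by_contra hcon
          apply hn1
          apply hsm1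
          have he1 : e = 1 := by omega
          rw [he1, pow_one] at hlt
          exact hlt
    obtain ⟨N, g, v, μ, hN, hg, hv, hμ, hzN, hc⟩ := key
    let zN : S → N := fun s => ⟨z s, hzN s s.2⟩
    obtain ⟨τ, hτ, hτS⟩ := CORE hp hG e hex hmax N g hg μ (Finset.univ.image zN) (by
      intro w hw
      obtain ⟨s, -, rfl⟩ := Finset.mem_image.1 hw
      obtain ⟨c, hc1, hcv⟩ := hsc s s.2
      intro h
      have h1 := hμ (zN s)
      rw [h, Units.val_one, one_smul] at h1
      change lin σ (z s) v = v at h1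
      rw [hcv v] at h1
      have h2 : (c - 1) • v = 0 := by rw [sub_smul, one_smul, h1, sub_self]
      rcases smul_eq_zero.1 h2 with h3 | h3
      · exact hc1 (sub_eq_zero.1 h3)
      · exact hv h3) (by
      have h1 : (Finset.univ.image zN).card ≤ S.card := by
        refine Finset.card_image_le.trans ?_
        rw [Finset.card_univ, Fintype.card_coe]
      rcases hc with h | ⟨h, h'⟩
      · left; omega
      · right; exact ⟨h, by omega⟩)
    refine ⟨τ, hτ, fun s hs h => ?_⟩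
    exact hτS (zN ⟨s, hs⟩) (Finset.mem_image_of_mem _ (Finset.mem_univ _))
      (normalClosure_one τ s _ (hz s hs).2.2 h)
  · have hneq : n = p ^ e := le_antisymm hle hge
    subst hneq
    refine ⟨σ, hσ, fun s hs h => ?_⟩
    obtain ⟨c, hc1, hcv⟩ := hsc s hs
    have h1 := normalClosure_one σ s _ (hz s hs).2.2 h
    have hnt : Nontrivial (Fin (p ^ e) → ℂ) := hirr.1
    obtain ⟨v, hv⟩ := exists_ne (0 : Fin (p ^ e) → ℂ)
    have h2 := hcv v
    rw [lin_apply, h1, Units.val_one, Matrix.one_mulVec] at h2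
    have h3 : (c - 1) • v = 0 := by rw [sub_smul, one_smul, ← h2, sub_self]
    rcases smul_eq_zero.1 h3 with h4 | h4
    · exact hc1 (sub_eq_zero.1 h4)
    · exact hv h4

end Pool.Agent.Helper74.MX
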