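import Mathlib

set_option autoImplicit false

namespace Pool.Agent.Helper74.MX

/-- The linear action of `G` on column vectors given by a matrix representation. -/
def lin {G : Type} [Group G] {n : ℕ} (σ : G →* Matrix.GeneralLinearGroup (Fin n) ℂ) :
    G →* Module.End ℂ (Fin n → ℂ) where
  toFun g := Matrix.toLin' (σ g).1
  map_one' := by rw [map_one]; exact Matrix.toLin'_one
  map_mul' := by intro x y; rw [map_mul, Units.val_mul, Matrix.toLin'_mul]; rfl

theorem lin_apply {G : Type} [Group G] {n : ℕ} (σ : G →* Matrix.GeneralLinearGroup (Fin n) ℂ)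
    (g : G) (v : Fin n → ℂ) : lin σ g v = Matrix.mulVec (σ g).1 v := rfl

/-- `W` is invariant under all operators `ρ g`. -/
def Inv {G : Type} [Group G] {V : Type} [AddCommGroup V] [Module ℂ V]
    (ρ : G →* Module.End ℂ V) (W : Submodule ℂ V) : Prop :=
  ∀ g : G, ∀ v ∈ W, ρ g v ∈ W

/-- No proper invariant subspaces. -/
def Irr {G : Type} [Group G] {V : Type} [AddCommGroup V] [Module ℂ V]
    (ρ : G →* Module.End ℂ V) : Prop :=
  Nontrivial V ∧ ∀ W : Submodule ℂ V, Inv ρ W → W = ⊥ ∨ W = ⊤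

/-- Some invertible operator transforms `η` into its twist by `g ^ d`. -/
def Tw {G : Type} [Group G] (N : Subgroup G) [N.Normal] (g : G) {U : Type} [AddCommGroup U]
    [Module ℂ U] (η : N →* Module.End ℂ U) (d : ℤ) : Prop :=
  ∃ B : U ≃ₗ[ℂ] U, ∀ (n : N) (u : U), B (η n u) = η (MulAut.conjNormal (g ^ d) n) (B u)

/-- `η ⊗ μ ^ c`. -/
def tens {N : Type} [Group N] {U : Type} [AddCommGroup U] [Module ℂ U]
    (η : N →* Module.End ℂ U) (μ : N →* ℂˣ) (c : ℤ) : N →* Module.End ℂ U where
  toFun n := (((μ n) ^ c : ℂˣ) : ℂ) • η n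
  map_one' := by simp
  map_mul' := by
    intro x y
    rw [map_mul, map_mul, mul_zpow, Units.val_mul, smul_mul_smul_comm]

theorem tens_apply {N : Type} [Group N] {U : Type} [AddCommGroup U] [Module ℂ U]
    (η : N →* Module.End ℂ U) (μ : N →* ℂˣ) (c : ℤ) (n : N) (u : U) :
    tens η μ c n u = (((μ n) ^ c : ℂˣ) : ℂ) • η n u := rfl

/-- The action on an invariant subspace. -/
def sub {G : Type} [Group G] {V : Type} [AddCommGroup V] [Module ℂ V]
    (ρ : G →* Module.End ℂ V) (W : Submodule ℂ V) (hW : Inv ρ W) : G →* Module.End ℂ W where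
  toFun g := (ρ g).restrict (hW g)
  map_one' := by ext v; simp
  map_mul' := by intro x y; ext v; simp

theorem sub_coe {G : Type} [Group G] {V : Type} [AddCommGroup V] [Module ℂ V]
    (ρ : G →* Module.End ℂ V) (W : Submodule ℂ V) (hW : Inv ρ W) (g : G) (w : W) :
    (sub ρ W hW g w : V) = ρ g w := rfl

end Pool.Agent.Helper74.MX
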