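import Pool.Agent.Helper74.MX.Defs
import Pool.Agent.Helper89.MD.Defs

set_option autoImplicit false

open Pool.Agent.Helper89.MD (Irred)

namespace Pool.Agent.Helper74.MX

/-- There is a minimal invariant subspace inside any nonzero invariant one.
PROOF: choose a nonzero invariant subspace `W ≤ W0` of least `finrank` (Nat.find / strong
induction). If `W' : Submodule ℂ W` is invariant under `sub ρ W hW`, then `W'.map W.subtype` is
invariant under `ρ`, contained in `W`, so it is `⊥` or has the same finrank, so equals `W`. -/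
theorem MIN {G : Type} [Group G] {V : Type} [AddCommGroup V] [Module ℂ V]
    [FiniteDimensional ℂ V] (ρ : G →* Module.End ℂ V) (W0 : Submodule ℂ V) (h0 : W0 ≠ ⊥)
    (hinv : Inv ρ W0) :
    ∃ (W : Submodule ℂ V) (hW : Inv ρ W), W ≤ W0 ∧ W ≠ ⊥ ∧ Irr (sub ρ W hW) := by
  obtain ⟨W, ⟨h1, h2, h3⟩, hmin⟩ := (wellFounded_lt (α := Submodule ℂ V)).has_min
    {W : Submodule ℂ V | W ≤ W0 ∧ W ≠ ⊥ ∧ Inv ρ W} ⟨W0, le_rfl, h0, hinv⟩
  refine ⟨W, h3, h1, h2, (Submodule.nontrivial_iff_ne_bot).2 h2, fun W' hW' => ?_⟩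
  by_cases hb : W' = ⊥
  · exact Or.inl hb
  · right
    have hle : W'.map W.subtype ≤ W := by
      rintro v ⟨w, -, rfl⟩
      exact w.2
    have hne : W'.map W.subtype ≠ ⊥ := by
      intro h
      apply hb
      rw [eq_bot_iff]
      intro x hx
      have h4 : (x : V) ∈ W'.map W.subtype := ⟨x, hx, rfl⟩
      rw [h, Submodule.mem_bot] at h4
      exact (Submodule.mem_bot ℂ).2 (Subtype.ext h4)
    have hin : Inv ρ (W'.map W.subtype) := by
      rintro g v ⟨w, hw, rfl⟩
      exact ⟨sub ρ W h3 g w, hW' g w hw, rfl⟩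
    have hnlt := hmin (W'.map W.subtype) ⟨hle.trans h1, hne, hin⟩
    have heq : W'.map W.subtype = W := by
      by_contra hcon
      exact hnlt (lt_of_le_of_ne hle hcon)
    rw [eq_top_iff]
    intro x _
    have hx : (x : V) ∈ W'.map W.subtype := by rw [heq]; exact x.2
    obtain ⟨y, hy, hxy⟩ := hx
    have : y = x := Subtype.ext hxy
    rw [← this]
    exact hy

/-- Every irreducible action on a finite-dimensional space comes from a matrix representation.
PROOF: `n = finrank ℂ V`, `e` from `Module.finBasis ℂ V` (`.equivFun.symm`),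
`σ g` = the unit with matrix `LinearMap.toMatrix'` of `e⁻¹ ∘ ρ g ∘ e` and inverse the matrix for
`g⁻¹`. Invariant subspaces of `σ` are carried by `e` to invariant subspaces of `ρ`. -/
theorem MAT {G : Type} [Group G] {V : Type} [AddCommGroup V] [Module ℂ V]
    [FiniteDimensional ℂ V] (ρ : G →* Module.End ℂ V) (hρ : Irr ρ) :
    ∃ (n : ℕ) (σ : G →* Matrix.GeneralLinearGroup (Fin n) ℂ) (e : (Fin n → ℂ) ≃ₗ[ℂ] V),
      0 < n ∧ Irred σ ∧ ∀ (g : G) (v : Fin n → ℂ), e (Matrix.mulVec (σ g).1 v) = ρ g (e v) := by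
  have := hρ.1
  let e : (Fin (Module.finrank ℂ V) → ℂ) ≃ₗ[ℂ] V := (Module.finBasis ℂ V).equivFun.symm
  let f : G →* Matrix (Fin (Module.finrank ℂ V)) (Fin (Module.finrank ℂ V)) ℂ :=
    { toFun := fun g => LinearMap.toMatrix' (e.symm.toLinearMap ∘ₗ ρ g ∘ₗ e.toLinearMap)
      map_one' := by
        have : e.symm.toLinearMap ∘ₗ ρ 1 ∘ₗ e.toLinearMap = LinearMap.id := by
          apply LinearMap.ext
          intro v
          simp
        rw [this, LinearMap.toMatrix'_id]
      map_mul' := by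
        intro x y
        rw [← LinearMap.toMatrix'_comp]
        congr 1
        apply LinearMap.ext
        intro v
        simp }
  have key : ∀ (g : G) (v : Fin (Module.finrank ℂ V) → ℂ),
      e (Matrix.mulVec (f.toHomUnits g).1 v) = ρ g (e v) := by
    intro g v
    rw [MonoidHom.coe_toHomUnits]
    change e (Matrix.mulVec (LinearMap.toMatrix' (e.symm.toLinearMap ∘ₗ ρ g ∘ₗ e.toLinearMap)) v)
      = _
    rw [LinearMap.toMatrix'_mulVec]
    simp
  refine ⟨Module.finrank ℂ V, f.toHomUnits, e, Module.finrank_pos, fun W hW => ?_, key⟩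
  have hin : Inv ρ (W.map e.toLinearMap) := by
    rintro g v ⟨w, hw, rfl⟩
    refine ⟨Matrix.mulVec (f.toHomUnits g).1 w, hW g w hw, ?_⟩
    exact key g w
  rcases hρ.2 _ hin with h | h
  · left
    rw [eq_bot_iff]
    intro x hx
    have h4 : e x ∈ W.map e.toLinearMap := ⟨x, hx, rfl⟩
    rw [h, Submodule.mem_bot] at h4
    rw [Submodule.mem_bot]
    exact e.map_eq_zero_iff.1 h4
  · right
    rw [eq_top_iff]
    intro x _
    have hx : e x ∈ W.map e.toLinearMap := by rw [h]; trivial
    obtain ⟨y, hy, hxy⟩ := hx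
    have : y = x := e.injective hxy
    rw [← this]
    exact hy

end Pool.Agent.Helper74.MX
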