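import Pool.Agent.Helper74.MX.MIN
import Pool.Agent.Helper89.MD.CE

set_option autoImplicit false

namespace Pool.Agent.Helper74.MX

/-- An irreducible representation of dimension not one is induced from a proper subgroup; we
only need the inequality for dimensions.
PROOF: let `Z` be the normal subgroup of the elements acting by scalars. If `Z = ⊤`, every line is
invariant and `finrank = 1`. Otherwise take `x ∉ Z` central modulo `Z` (`G ⧸ Z` is a nontrivial
`p`-group), so `ρ g ρ x = c(g) ρ x ρ g` with scalars `c(g)`. Let `θ` be an eigenvalue of `ρ x` with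
eigenspace `W` and `T` the subgroup of the `g` with `ρ g` commuting with `ρ x`. Then `ρ g W` is
contained in the eigenspace for `c(g)⁻¹ θ`, these are different for different cosets of `T`, so
`index T * finrank W ≤ finrank V`. If `T = ⊤` then `W = ⊤` and `ρ x` is a scalar. -/
theorem ORB {G : Type} [Group G] [Finite G] {p : ℕ} (hp : p.Prime) (hG : IsPGroup p G)
    {V : Type} [AddCommGroup V] [Module ℂ V] [FiniteDimensional ℂ V]
    (ρ : G →* Module.End ℂ V) (hρ : Irr ρ) (h1 : Module.finrank ℂ V ≠ 1) :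
    ∃ (T : Subgroup G) (W : Submodule ℂ V), T ≠ ⊤ ∧ W ≠ ⊥ ∧
      (∀ x ∈ T, ∀ v ∈ W, ρ x v ∈ W) ∧ T.index * Module.finrank ℂ W ≤ Module.finrank ℂ V := by
  classical
  have : Fact p.Prime := ⟨hp⟩
  have : Nontrivial V := hρ.1
  have hinv : ∀ g : G, ρ g * ρ g⁻¹ = 1 := fun g => by rw [← map_mul, mul_inv_cancel, map_one]
  have hinv' : ∀ g : G, ρ g⁻¹ * ρ g = 1 := fun g => by rw [← map_mul, inv_mul_cancel, map_one]
  have hone : (1 : Module.End ℂ V) ≠ 0 := one_ne_zero
  -- the subgroup of elements acting by scalars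
  let Z : Subgroup G :=
    { carrier := {g | ∃ c : ℂ, ρ g = c • (1 : Module.End ℂ V)}
      one_mem' := ⟨1, by simp⟩
      mul_mem' := by
        rintro a b ⟨c, hc⟩ ⟨d, hd⟩
        exact ⟨c * d, by rw [map_mul, hc, hd, smul_mul_smul_comm, one_mul]⟩
      inv_mem' := by
        rintro a ⟨c, hc⟩
        have hc0 : c ≠ 0 := by
          rintro rfl
          have := hinv a
          rw [hc, zero_smul, zero_mul] at this
          exact hone this.symm
        refine ⟨c⁻¹, ?_⟩
        have := hinv a
        rw [hc, smul_mul_assoc, one_mul] at this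
        rw [← this, smul_smul, inv_mul_cancel₀ hc0, one_smul] }
  have hZ : ∀ g : G, g ∈ Z ↔ ∃ c : ℂ, ρ g = c • (1 : Module.End ℂ V) := fun g => Iff.rfl
  have hZn : Z.Normal := by
    constructor
    rintro n ⟨c, hc⟩ g
    refine ⟨c, ?_⟩
    rw [map_mul, map_mul, hc, mul_smul_comm, mul_one, smul_mul_assoc, hinv]
  by_cases hZt : Z = ⊤
  · -- every line is invariant
    exfalso
    obtain ⟨v, hv⟩ := exists_ne (0 : V)
    rcases hρ.2 (ℂ ∙ v) (by
      intro g w hw
      obtain ⟨c, hc⟩ := (hZ g).1 (hZt ▸ Subgroup.mem_top g)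
      rw [hc]
      exact Submodule.smul_mem _ c hw) with h | h
    · exact hv (Submodule.span_singleton_eq_bot.1 h)
    · apply h1
      have := finrank_span_singleton (K := ℂ) hv
      rw [h, finrank_top] at this
      exact this
  -- an element central modulo `Z`
  have : Nontrivial (G ⧸ Z) := by
    rw [← not_subsingleton_iff_nontrivial]
    intro hs
    exact hZt (QuotientGroup.subgroup_eq_top_of_subsingleton Z hs)
  have := (hG.to_quotient Z).center_nontrivial
  obtain ⟨⟨y, hy⟩, hy1⟩ := exists_ne (1 : Subgroup.center (G ⧸ Z))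
  obtain ⟨x, rfl⟩ := QuotientGroup.mk_surjective y
  have hxZ : x ∉ Z := by
    intro hx
    apply hy1
    ext
    exact (QuotientGroup.eq_one_iff x).2 hx
  have hcomm : ∀ g : G, ∃ c : ℂ, ρ g * ρ x = c • (ρ x * ρ g) := by
    intro g
    have h2 := Subgroup.mem_center_iff.1 hy (QuotientGroup.mk g)
    have h3 : (x * g)⁻¹ * (g * x) ∈ Z := by
      rw [← QuotientGroup.eq]
      exact h2.symm
    obtain ⟨c, hc⟩ := h3
    refine ⟨c, ?_⟩
    rw [← map_mul, ← map_mul]
    have h4 : g * x = (x * g) * ((x * g)⁻¹ * (g * x)) := by group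
    rw [h4, map_mul, hc, mul_smul_comm, mul_one]
  choose c hc using hcomm
  have hc0 : ∀ g, c g ≠ 0 := by
    intro g h
    have h2 := hc g
    rw [h, zero_smul, ← map_mul] at h2
    have := hinv (g * x)
    rw [h2, zero_mul] at this
    exact hone this.symm
  obtain ⟨θ, hθ⟩ := Module.End.exists_eigenvalue (ρ x)
  have hθ0 : θ ≠ 0 := by
    rintro rfl
    obtain ⟨v, hv⟩ := hθ.exists_hasEigenvector
    have h2 := hv.apply_eq_smul
    rw [zero_smul] at h2
    have h3 := congrArg (fun f : Module.End ℂ V => f v) (hinv' x)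
    simp only [Module.End.mul_apply, h2, map_zero, Module.End.one_apply] at h3
    exact hv.2 h3.symm
  set W : Submodule ℂ V := (ρ x).eigenspace θ with hW
  let T : Subgroup G :=
    { carrier := {g | ρ g * ρ x = ρ x * ρ g}
      one_mem' := by simp
      mul_mem' := by
        intro a b ha hb
        have ha' : ρ a * ρ x = ρ x * ρ a := ha
        have hb' : ρ b * ρ x = ρ x * ρ b := hb
        change ρ (a * b) * ρ x = ρ x * ρ (a * b)
        rw [map_mul, mul_assoc, hb', ← mul_assoc, ha', mul_assoc]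
      inv_mem' := by
        intro a ha
        have ha' : ρ a * ρ x = ρ x * ρ a := ha
        change ρ a⁻¹ * ρ x = ρ x * ρ a⁻¹
        calc ρ a⁻¹ * ρ x = ρ a⁻¹ * (ρ x * ρ a) * ρ a⁻¹ := by
              rw [mul_assoc, mul_assoc, hinv, mul_one]
          _ = ρ x * ρ a⁻¹ := by rw [← ha', ← mul_assoc, hinv', one_mul] }
  have hT : ∀ g : G, g ∈ T ↔ ρ g * ρ x = ρ x * ρ g := fun g => Iff.rfl
  have hact : ∀ g : G, ∀ v ∈ W, ρ g v ∈ (ρ x).eigenspace ((c g)⁻¹ * θ) := by
    intro g v hv
    rw [hW, Module.End.mem_eigenspace_iff] at hv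
    rw [Module.End.mem_eigenspace_iff]
    have h2 := congrArg (fun f : Module.End ℂ V => f v) (hc g)
    simp only [Module.End.mul_apply, LinearMap.smul_apply, hv, map_smul] at h2
    rw [mul_smul, h2, smul_smul, inv_mul_cancel₀ (hc0 g), one_smul]
  have hTW : ∀ g ∈ T, ∀ v ∈ W, ρ g v ∈ W := by
    intro g hg v hv
    rw [hW, Module.End.mem_eigenspace_iff] at hv ⊢
    have h2 := congrArg (fun f : Module.End ℂ V => f v) ((hT g).1 hg)
    simp only [Module.End.mul_apply, hv, map_smul] at h2
    exact h2.symm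
  refine ⟨T, W, ?_, hθ, hTW, ?_⟩
  · intro hTt
    rcases hρ.2 W (fun g v hv => hTW g (hTt ▸ Subgroup.mem_top g) v hv) with h | h
    · exact hθ h
    · apply hxZ
      rw [hZ]
      refine ⟨θ, ?_⟩
      ext v
      have : v ∈ W := h ▸ Submodule.mem_top
      rw [hW, Module.End.mem_eigenspace_iff] at this
      simpa using this
  · -- the dimension count
    let _ : Fintype (G ⧸ T) := Fintype.ofFinite _
    have hinj : Function.Injective fun i : G ⧸ T => (c i.out)⁻¹ * θ := by
      intro i j hij
      have h2 : c i.out = c j.out := inv_injective (mul_right_cancel₀ hθ0 hij)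
      rw [← QuotientGroup.out_eq' i, ← QuotientGroup.out_eq' j, QuotientGroup.eq, hT]
      set g := i.out
      set h := j.out
      have h3 : ρ x * ρ g⁻¹ = c g • (ρ g⁻¹ * ρ x) := by
        calc ρ x * ρ g⁻¹ = ρ g⁻¹ * (ρ g * ρ x) * ρ g⁻¹ := by
              rw [← mul_assoc, hinv', one_mul]
          _ = c g • (ρ g⁻¹ * ρ x) := by
              rw [hc g, mul_smul_comm, smul_mul_assoc, ← mul_assoc, mul_assoc _ (ρ g), hinv, mul_one]
      calc ρ (g⁻¹ * h) * ρ x = ρ g⁻¹ * (ρ h * ρ x) := by rw [map_mul, mul_assoc]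
        _ = c g • (ρ g⁻¹ * ρ x) * ρ h := by
            rw [hc h, h2, mul_smul_comm, smul_mul_assoc, mul_assoc]
        _ = ρ x * ρ (g⁻¹ * h) := by rw [← h3, map_mul, mul_assoc]
    have hind := ((ρ x).eigenspaces_iSupIndep).comp hinj
    rw [iSupIndep_iff_finsetSum_eq_zero_imp_eq_zero] at hind
    let Φ : ((i : G ⧸ T) → W) →ₗ[ℂ] V :=
      ∑ i : G ⧸ T, (ρ i.out).comp (W.subtype.comp (LinearMap.proj i))
    have hΦ : ∀ w, Φ w = ∑ i : G ⧸ T, ρ i.out (w i : V) := by
      intro w
      simp [Φ]
    have hΦi : Function.Injective Φ := by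
      rw [← LinearMap.ker_eq_bot, LinearMap.ker_eq_bot']
      intro w hw
      rw [hΦ] at hw
      have h6 := hind Finset.univ (fun i => ρ i.out (w i : V)) (fun i _ => hact _ _ (w i).2) hw
      funext i
      have h7 : ρ i.out (w i : V) = 0 := h6 i (Finset.mem_univ i)
      have h8 := congrArg (fun f : Module.End ℂ V => f (w i : V)) (hinv' i.out)
      simp only [Module.End.mul_apply, h7, map_zero, Module.End.one_apply] at h8
      exact Subtype.ext h8.symm
    have h5 := LinearMap.finrank_le_finrank_of_injective hΦi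
    rw [Module.finrank_pi_fintype] at h5
    simpa [Subgroup.index, Nat.card_eq_fintype_card] using h5

end Pool.Agent.Helper74.MX
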